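import Pool.Agent.NH44.HY.Swap

/-!
# The reverse comparison and the comparison with two additional neighbours
-/

open Classical Finset

namespace Pool.Agent.NH44.HY

open SW

/-- A homomorphism criterion with local conditions. -/
theorem homG {V : Type} [Fintype V] {G : SimpleGraph V} {u v q q' : V}
    (hqu : q ≠ u) (hqv : q ≠ v) (hqu' : q' ≠ u) (hqv' : q' ≠ v)
    (hvq : G.Adj v q') {a b : V} (hab : G.Adj a b) (ha : a ≠ v) (hb : b ≠ v)
    (hu : ∀ w, (a = u ∧ b = w) ∨ (b = u ∧ a = w) → w ≠ q → w ≠ q' ∧ G.Adj v w)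
    (hq : ∀ w, (a = q ∧ b = w) ∨ (b = q ∧ a = w) → w ≠ u → w ≠ q' → G.Adj q' w)
    (hq' : ∀ w, (a = q' ∧ b = w) ∨ (b = q' ∧ a = w) → w ≠ u → w ≠ q → G.Adj q w) :
    G.Adj (sg u v q q' a) (sg u v q q' b) := by
  rcases eq_or_ne a u with rfl | hau
  · rw [sg_u hqu hqu']
    rcases eq_or_ne b q with rfl | hbq
    · rw [sg_q hqu' hqv']; exact hvq
    · have := hu b (Or.inl ⟨rfl, rfl⟩) hbq
      rw [sg_o hab.ne' hb hbq this.1]
      exact this.2
  · rcases eq_or_ne b u with rfl | hbu
    · rw [sg_u hqu hqu']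
      rcases eq_or_ne a q with rfl | haq
      · rw [sg_q hqu' hqv']; exact hvq.symm
      · have := hu a (Or.inr ⟨rfl, rfl⟩) haq
        rw [sg_o hab.ne ha haq this.1]
        exact this.2.symm
    · rcases eq_or_ne a q with rfl | haq
      · rw [sg_q hqu' hqv']
        rcases eq_or_ne b q' with rfl | hbq'
        · rw [sg_q' hqu hqv]; exact hab.symm
        · rw [sg_o hbu hb hab.ne' hbq']
          exact hq b (Or.inl ⟨rfl, rfl⟩) hbu hbq'
      · rcases eq_or_ne a q' with rfl | haq'
        · rw [sg_q' hqu hqv]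
          rcases eq_or_ne b q with rfl | hbq
          · rw [sg_q hqu' hqv']; exact hab.symm
          · rw [sg_o hbu hb hbq hab.ne']
            exact hq' b (Or.inl ⟨rfl, rfl⟩) hbu hbq
        · rw [sg_o hau ha haq haq']
          rcases eq_or_ne b q with rfl | hbq
          · rw [sg_q hqu' hqv']
            exact (hq a (Or.inr ⟨rfl, rfl⟩) hau haq').symm
          · rcases eq_or_ne b q' with rfl | hbq'
            · rw [sg_q' hqu hqv]
              exact (hq' a (Or.inr ⟨rfl, rfl⟩) hau haq).symm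
            · rw [sg_o hbu hb hbq hbq']
              exact hab

theorem t_Back : St_Back := by
  intro V W _ _ F G u v q q' mt huv hqq hqu hqv hqu' hqv' hN huq hvq hdom
  have key := card_le_of (A := P F G v u) (A' := P F G u v) (B := ∅)
    (B' := BB F G u v q q' (DD G u v q q')) (Finset.empty_subset _) (Finset.filter_subset _ _)
    (fun φ => if Uses F φ v q' then φ.trans (sg v u q' q).toEmbedding
      else φ.trans (Equiv.swap v u).toEmbedding) ?_ ?_
  · simpa using key
  · intro φ hφ _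
    by_cases hU : Uses F φ v q'
    · rw [if_pos hU]
      obtain ⟨x0, y0, hxy0, hx0, hy0⟩ := hU
      have hφ' := hφ
      rw [mem_P] at hφ'
      obtain ⟨h1, _, h3⟩ := hφ'
      refine ⟨?_, ?_⟩
      · rw [mem_P]
        refine ⟨?_, ⟨x0, ?_⟩, ?_⟩
        · intro x y hxy
          have f1 : ∀ x y, F.Adj x y → φ x = v → φ y = q' := by
            intro x y hxy hx
            have : x = x0 := φ.injective (hx.trans hx0.symm)
            subst this
            rw [mt _ _ _ hxy hxy0, hy0]
          have f2 : ∀ x y, F.Adj x y → φ x = q' → φ y = v := by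
            intro x y hxy hx
            have : x = y0 := φ.injective (hx.trans hy0.symm)
            subst this
            rw [mt _ _ _ hxy hxy0.symm, hx0]
          have f3 : ∀ x y, F.Adj x y → φ x = q → φ y ≠ v → φ y ≠ q' → G.Adj q' (φ y) := by
            intro x y hxy hx hyv hyq
            refine hdom _ (h3 y) hyv hyq ?_
            rw [← hx]; exact h1 x y hxy
          refine homG hqv' hqu' hqv hqu huq (h1 x y hxy) (h3 x) (h3 y) ?_ ?_ ?_
          · rintro w (⟨hx, hy⟩ | ⟨hy, hx⟩) hw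
            · exact absurd ((hy.symm.trans (f1 x y hxy hx))) hw
            · exact absurd ((hx.symm.trans (f1 y x hxy.symm hy))) hw
          · rintro w (⟨hx, hy⟩ | ⟨hy, hx⟩) hw
            · exact absurd ((hy.symm.trans (f2 x y hxy hx))) hw
            · exact absurd ((hx.symm.trans (f2 y x hxy.symm hy))) hw
          · rintro w (⟨hx, hy⟩ | ⟨hy, hx⟩) hw hw'
            · rw [← hy]
              exact f3 x y hxy hx (by rw [hy]; exact hw) (by rw [hy]; exact hw')
            · rw [← hx]
              exact f3 y x hxy.symm hy (by rw [hx]; exact hw) (by rw [hx]; exact hw')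
        · change sg v u q' q (φ x0) = u
          rw [hx0, sg_u hqv' hqv]
        · intro x hx
          change sg v u q' q (φ x) = v at hx
          have : φ x = u := (sg v u q' q).injective (hx.trans (sg_v hqu' hqu).symm)
          exact h3 x this
      · rw [BB, Finset.mem_filter]
        rintro ⟨_, _, t, ht, x, y, hxy, hx, hy⟩
        change sg v u q' q (φ x) = q' at hx
        change sg v u q' q (φ y) = t at hy
        simp only [DD, Finset.mem_filter, Finset.mem_univ, true_and] at ht
        obtain ⟨t1, t2, t3, t4, t5, t6⟩ := ht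
        have e1 : φ x = q := (sg v u q' q).injective (hx.trans (sg_q' hqv' hqu').symm)
        have e2 : φ y = t := (sg v u q' q).injective (hy.trans (sg_o t4 t3 t6 t5).symm)
        have hadj := h1 x y hxy
        rw [e1, e2] at hadj
        exact t2 hadj
    · rw [if_neg hU]
      obtain ⟨m1, m2⟩ := type1 hN hφ hU
      refine ⟨m1, ?_⟩
      rw [BB, Finset.mem_filter]
      rintro ⟨_, hq, _⟩
      exact hvq (m2 q hqv hq)
  · intro φ hφ _ ψ hψ _ h
    by_cases hU : Uses F φ v q'
    · by_cases hU' : Uses F ψ v q'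
      · simp only [if_pos hU, if_pos hU'] at h
        ext x
        exact (sg v u q' q).injective (DFunLike.congr_fun h x)
      · exfalso
        simp only [if_pos hU, if_neg hU'] at h
        obtain ⟨x, y, hxy, hx, hy⟩ := hU
        refine hvq ((type1 hN hψ hU').2 q hqv ?_)
        rw [← h]
        refine ⟨x, y, hxy, ?_, ?_⟩
        · change sg v u q' q (φ x) = u
          rw [hx, sg_u hqv' hqv]
        · change sg v u q' q (φ y) = q
          rw [hy, sg_q hqv hqu]
    · by_cases hU' : Uses F ψ v q'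
      · exfalso
        simp only [if_neg hU, if_pos hU'] at h
        obtain ⟨x, y, hxy, hx, hy⟩ := hU'
        refine hvq ((type1 hN hφ hU).2 q hqv ?_)
        rw [h]
        refine ⟨x, y, hxy, ?_, ?_⟩
        · change sg v u q' q (ψ x) = u
          rw [hx, sg_u hqv' hqv]
        · change sg v u q' q (ψ y) = q
          rw [hy, sg_q hqv hqu]
      · simp only [if_neg hU, if_neg hU'] at h
        ext x
        exact (Equiv.swap v u).injective (DFunLike.congr_fun h x)

/-- Type 3 images: `g` goes to the dominated vertex `p`. -/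
theorem type3 {V W : Type} [Fintype V] [Fintype W] {F : SimpleGraph W} {G : SimpleGraph V}
    {u v g p : V} (hgu : g ≠ u) (hgv : g ≠ v) (hpu : p ≠ u) (hpv : p ≠ v)
    (hN : ∀ w, w ≠ v → w ≠ g → G.Adj u w → G.Adj v w) (hvp : G.Adj v p)
    (hup : ¬ G.Adj u p)
    (hd : ∀ w, w ≠ u → w ≠ v → w ≠ g → G.Adj p w → G.Adj g w)
    {φ : W ↪ V} (hφ : φ ∈ P F G u v) (hug : Uses F φ u g)
    (hD : φ ∉ BB F G u v g g (DD G u v p g)) :
    φ.trans (sg u v g p).toEmbedding ∈ P F G v u ∧
      Uses F (φ.trans (sg u v g p).toEmbedding) v p ∧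
      ∀ p', p' ≠ u → p' ≠ p → Uses F (φ.trans (sg u v g p).toEmbedding) v p' →
        p' = g ∨ G.Adj u p' := by
  have hD' : ¬ ∃ t ∈ DD G u v p g, Uses F φ g t := by
    intro h
    exact hD (Finset.mem_filter.2 ⟨hφ, hug, h⟩)
  rw [mem_P] at hφ
  obtain ⟨h1, ⟨x0, hx0⟩, h3⟩ := hφ
  have hu : ∀ x y, F.Adj x y → φ x = p → φ y ≠ u := by
    intro x y hxy hx hy
    have := h1 x y hxy
    rw [hx, hy] at this
    exact hup this.symm
  have hgg : ∀ x y, F.Adj x y → φ x = g → φ y ≠ u → φ y ≠ p → G.Adj p (φ y) := by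
    intro x y hxy hx hy hy'
    by_contra hcon
    refine hD' ⟨φ y, ?_, x, y, hxy, hx, rfl⟩
    simp only [DD, Finset.mem_filter, Finset.mem_univ, true_and]
    have hadj := h1 x y hxy
    rw [hx] at hadj
    exact ⟨hadj, hcon, hy, h3 y, hy', hadj.ne'⟩
  refine ⟨?_, ?_, ?_⟩
  · rw [mem_P]
    refine ⟨?_, ⟨x0, ?_⟩, ?_⟩
    · intro x y hxy
      refine homG hgu hgv hpu hpv hvp (h1 x y hxy) (h3 x) (h3 y) ?_ ?_ ?_
      · rintro w (⟨hx, hy⟩ | ⟨hy, hx⟩) hw
        · refine ⟨fun h => hu y x hxy.symm (hy.trans h) hx, ?_⟩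
          rw [← hy]
          refine hN _ (h3 y) (by rw [hy]; exact hw) ?_
          rw [← hx]; exact h1 x y hxy
        · refine ⟨fun h => hu x y hxy (hx.trans h) hy, ?_⟩
          rw [← hx]
          refine hN _ (h3 x) (by rw [hx]; exact hw) ?_
          rw [← hy]; exact (h1 x y hxy).symm
      · rintro w (⟨hx, hy⟩ | ⟨hy, hx⟩) hw hw'
        · rw [← hy]
          exact hgg x y hxy hx (by rw [hy]; exact hw) (by rw [hy]; exact hw')
        · rw [← hx]
          exact hgg y x hxy.symm hy (by rw [hx]; exact hw) (by rw [hx]; exact hw')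
      · rintro w (⟨hx, hy⟩ | ⟨hy, hx⟩) hw hw'
        · rw [← hy]
          refine hd _ (by rw [hy]; exact hw) (h3 y) (by rw [hy]; exact hw') ?_
          rw [← hx]; exact h1 x y hxy
        · rw [← hx]
          refine hd _ (by rw [hx]; exact hw) (h3 x) (by rw [hx]; exact hw') ?_
          rw [← hy]; exact (h1 x y hxy).symm
    · change sg u v g p (φ x0) = v
      rw [hx0, sg_u hgu hpu]
    · intro x hx
      change sg u v g p (φ x) = u at hx
      have : φ x = v := (sg u v g p).injective (hx.trans (sg_v hgv hpv).symm)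
      exact h3 x this
  · obtain ⟨x, y, hxy, hx, hy⟩ := hug
    refine ⟨x, y, hxy, ?_, ?_⟩
    · change sg u v g p (φ x) = v
      rw [hx, sg_u hgu hpu]
    · change sg u v g p (φ y) = p
      rw [hy, sg_q hpu hpv]
  · rintro p' hpu' hpp ⟨x, y, hxy, hx, hy⟩
    change sg u v g p (φ x) = v at hx
    change sg u v g p (φ y) = p' at hy
    have e1 : φ x = u := (sg u v g p).injective (hx.trans (sg_u hgu hpu).symm)
    have hadj := h1 x y hxy
    rw [e1] at hadj
    by_cases e2 : φ y = g
    · rw [e2, sg_q hpu hpv] at hy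
      exact absurd hy.symm hpp
    · by_cases e3 : φ y = p
      · rw [e3] at hadj
        exact absurd hadj hup
      · rw [sg_o hadj.ne' (h3 y) e2 e3] at hy
        rw [hy] at hadj
        exact Or.inr hadj

theorem t_Ratio : St_Ratio := by
  intro V W _ _ F G u v g p₁ p₂ huv hgu hgv hpp hp1u hp1v hp1g hp2u hp2v hp2g hN hvp1 hvp2 hup1
    hup2 hd1 hd2
  set A := P F G u v with hA
  set T := A.filter fun φ => Uses F φ u g with hT
  set A1 := BB F G u v g g (DD G u v p₁ g) with hA1
  set A2 := BB F G u v g g (DD G u v p₂ g) with hA2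
  have s1 : A1 ⊆ T := by
    intro φ h
    rw [hA1, BB, Finset.mem_filter] at h
    exact Finset.mem_filter.2 ⟨h.1, h.2.1⟩
  have s2 : A2 ⊆ T := by
    intro φ h
    rw [hA2, BB, Finset.mem_filter] at h
    exact Finset.mem_filter.2 ⟨h.1, h.2.1⟩
  have s0 : T ⊆ A := Finset.filter_subset _ _
  set I0 := (A \ T).image fun φ => φ.trans (Equiv.swap u v).toEmbedding with hI0
  set I1 := (T \ A1).image fun φ => φ.trans (sg u v g p₁).toEmbedding with hI1
  set I2 := (T \ A2).image fun φ => φ.trans (sg u v g p₂).toEmbedding with hI2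
  have c0 : I0.card = (A \ T).card := by
    refine Finset.card_image_of_injective _ ?_
    intro φ ψ h
    ext x
    exact (Equiv.swap u v).injective (DFunLike.congr_fun h x)
  have c1 : I1.card = (T \ A1).card := by
    refine Finset.card_image_of_injective _ ?_
    intro φ ψ h
    ext x
    exact (sg u v g p₁).injective (DFunLike.congr_fun h x)
  have c2 : I2.card = (T \ A2).card := by
    refine Finset.card_image_of_injective _ ?_
    intro φ ψ h
    ext x
    exact (sg u v g p₂).injective (DFunLike.congr_fun h x)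
  have f0 : ∀ φ ∈ I0, φ ∈ P F G v u ∧ ¬ Uses F φ v p₁ ∧ ¬ Uses F φ v p₂ := by
    intro φ hφ
    rw [hI0, Finset.mem_image] at hφ
    obtain ⟨ψ, hψ, rfl⟩ := hφ
    rw [Finset.mem_sdiff] at hψ
    have hq : ¬ Uses F ψ u g := fun h => hψ.2 (Finset.mem_filter.2 ⟨hψ.1, h⟩)
    obtain ⟨m1, m2⟩ := type1 hN hψ.1 hq
    exact ⟨m1, fun h => hup1 (m2 p₁ hp1u h), fun h => hup2 (m2 p₂ hp2u h)⟩
  have f1 : ∀ φ ∈ I1, φ ∈ P F G v u ∧ Uses F φ v p₁ ∧ ¬ Uses F φ v p₂ := by
    intro φ hφ
    rw [hI1, Finset.mem_image] at hφ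
    obtain ⟨ψ, hψ, rfl⟩ := hφ
    rw [Finset.mem_sdiff, hT, Finset.mem_filter] at hψ
    obtain ⟨m1, m2, m3⟩ := type3 hgu hgv hp1u hp1v hN hvp1 hup1 hd1 hψ.1.1 hψ.1.2 hψ.2
    refine ⟨m1, m2, fun h => ?_⟩
    rcases m3 p₂ hp2u hpp.symm h with h' | h'
    · exact hp2g h'
    · exact hup2 h'
  have f2 : ∀ φ ∈ I2, φ ∈ P F G v u ∧ Uses F φ v p₂ ∧ ¬ Uses F φ v p₁ := by
    intro φ hφ
    rw [hI2, Finset.mem_image] at hφ
    obtain ⟨ψ, hψ, rfl⟩ := hφ
    rw [Finset.mem_sdiff, hT, Finset.mem_filter] at hψ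
    obtain ⟨m1, m2, m3⟩ := type3 hgu hgv hp2u hp2v hN hvp2 hup2 hd2 hψ.1.1 hψ.1.2 hψ.2
    refine ⟨m1, m2, fun h => ?_⟩
    rcases m3 p₁ hp1u hpp h with h' | h'
    · exact hp1g h'
    · exact hup1 h'
  have d01 : Disjoint I0 I1 := Finset.disjoint_left.2 fun φ h h' => (f0 φ h).2.1 (f1 φ h').2.1
  have d012 : Disjoint (I0 ∪ I1) I2 := by
    rw [Finset.disjoint_left]
    intro φ h h'
    rw [Finset.mem_union] at h
    rcases h with h | h
    · exact (f0 φ h).2.2 (f2 φ h').2.1
    · exact (f1 φ h).2.2 (f2 φ h').2.1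
  have hsub : (I0 ∪ I1) ∪ I2 ⊆ P F G v u := by
    intro φ h
    rw [Finset.mem_union, Finset.mem_union] at h
    rcases h with (h | h) | h
    · exact (f0 φ h).1
    · exact (f1 φ h).1
    · exact (f2 φ h).1
  have hcard := Finset.card_le_card hsub
  rw [Finset.card_union_of_disjoint d012, Finset.card_union_of_disjoint d01, c0, c1, c2] at hcard
  have e0 := Finset.card_sdiff_add_card_eq_card s0
  have e1 := Finset.card_sdiff_add_card_eq_card s1
  have e2 := Finset.card_sdiff_add_card_eq_card s2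
  omega

end Pool.Agent.NH44.HY
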