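import Pool.Agent.NH44.HY.Low

/-!
# Labelled and unlabelled copies
-/

open Classical Finset

namespace Pool.Agent.NH44.HY

namespace CP

variable {V W : Type} (F : SimpleGraph W) (G : SimpleGraph V) (v : V)

/-- The subgraphs through `v` isomorphic to `F`. -/
abbrev TT : Type := {H : G.Subgraph // v ∈ H.verts ∧ Nonempty (F ≃g H.coe)}

/-- The labelled copies through `v`. -/
abbrev SS : Type := {φ : W ↪ V // (∀ x y, F.Adj x y → G.Adj (φ x) (φ y)) ∧ ∃ x, φ x = v}

/-- A chosen isomorphism. -/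
noncomputable def e0 (H : TT F G v) : F ≃g H.1.coe := H.2.2.some

/-- The labelled copy given by a subgraph and an automorphism. -/
noncomputable def mk (p : TT F G v × (F ≃g F)) : W ↪ V where
  toFun x := (e0 F G v p.1 (p.2 x)).1
  inj' := by
    intro x y hxy
    exact p.2.injective ((e0 F G v p.1).injective (Subtype.ext hxy))

theorem mk_apply (p : TT F G v × (F ≃g F)) (x : W) : mk F G v p x = (e0 F G v p.1 (p.2 x)).1 :=
  rfl

theorem adj_iff (p : TT F G v × (F ≃g F)) (a b : V) :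
    p.1.1.Adj a b ↔ ∃ x y, F.Adj x y ∧ mk F G v p x = a ∧ mk F G v p y = b := by
  constructor
  · intro h
    have ha : a ∈ p.1.1.verts := p.1.1.edge_vert h
    have hb : b ∈ p.1.1.verts := p.1.1.edge_vert h.symm
    refine ⟨p.2.symm ((e0 F G v p.1).symm ⟨a, ha⟩), p.2.symm ((e0 F G v p.1).symm ⟨b, hb⟩),
      ?_, ?_, ?_⟩
    · rw [p.2.symm.map_adj_iff, (e0 F G v p.1).symm.map_adj_iff]
      exact h
    · rw [mk_apply, RelIso.apply_symm_apply, RelIso.apply_symm_apply]
    · rw [mk_apply, RelIso.apply_symm_apply, RelIso.apply_symm_apply]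
  · rintro ⟨x, y, hxy, rfl, rfl⟩
    have h1 : F.Adj (p.2 x) (p.2 y) := p.2.map_adj_iff.2 hxy
    have h2 : p.1.1.coe.Adj (e0 F G v p.1 (p.2 x)) (e0 F G v p.1 (p.2 y)) :=
      (e0 F G v p.1).map_adj_iff.2 h1
    exact h2

theorem verts_iff (p : TT F G v × (F ≃g F)) (a : V) :
    a ∈ p.1.1.verts ↔ ∃ x, mk F G v p x = a := by
  constructor
  · intro ha
    refine ⟨p.2.symm ((e0 F G v p.1).symm ⟨a, ha⟩), ?_⟩
    rw [mk_apply, RelIso.apply_symm_apply, RelIso.apply_symm_apply]
  · rintro ⟨x, rfl⟩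
    exact (e0 F G v p.1 (p.2 x)).2

/-- The bijection. -/
noncomputable def mk' (p : TT F G v × (F ≃g F)) : SS F G v :=
  ⟨mk F G v p, by
    intro x y hxy
    exact p.1.1.adj_sub ((adj_iff F G v p _ _).2 ⟨x, y, hxy, rfl, rfl⟩),
    (verts_iff F G v p v).1 p.1.2.1⟩

theorem mk'_injective : Function.Injective (mk' F G v) := by
  intro p p' h
  have h1 : mk F G v p = mk F G v p' := congrArg Subtype.val h
  have h2 : p.1 = p'.1 := by
    apply Subtype.ext
    ext a b
    · rw [verts_iff F G v p, verts_iff F G v p', h1]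
    · rw [adj_iff F G v p, adj_iff F G v p', h1]
  obtain ⟨H, θ⟩ := p
  obtain ⟨H', θ'⟩ := p'
  simp only at h2
  subst h2
  congr 1
  ext x
  have := DFunLike.congr_fun h1 x
  rw [mk_apply, mk_apply] at this
  exact (e0 F G v H).injective (Subtype.ext this)

/-- The image of a labelled copy. -/
def img (φ : W ↪ V) (h : ∀ x y, F.Adj x y → G.Adj (φ x) (φ y)) : G.Subgraph where
  verts := Set.range φ
  Adj a b := ∃ x y, F.Adj x y ∧ φ x = a ∧ φ y = b
  adj_sub := by
    rintro a b ⟨x, y, hxy, rfl, rfl⟩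
    exact h x y hxy
  edge_vert := by
    rintro a b ⟨x, y, hxy, rfl, rfl⟩
    exact ⟨x, rfl⟩
  symm := by
    refine ⟨?_⟩
    rintro a b ⟨x, y, hxy, rfl, rfl⟩
    exact ⟨y, x, hxy.symm, rfl, rfl⟩

/-- The isomorphism with the image. -/
noncomputable def imgIso (φ : W ↪ V) (h : ∀ x y, F.Adj x y → G.Adj (φ x) (φ y)) :
    F ≃g (img F G φ h).coe where
  toEquiv := Equiv.ofInjective φ φ.injective
  map_rel_iff' := by
    intro a b
    constructor
    · rintro ⟨x, y, hxy, hx, hy⟩
      have e1 : x = a := φ.injective hx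
      have e2 : y = b := φ.injective hy
      rw [← e1, ← e2]; exact hxy
    · intro hab
      exact ⟨a, b, hab, rfl, rfl⟩

theorem imgIso_apply (φ : W ↪ V) (h : ∀ x y, F.Adj x y → G.Adj (φ x) (φ y)) (x : W) :
    (imgIso F G φ h x).1 = φ x := rfl

theorem mk'_surjective : Function.Surjective (mk' F G v) := by
  rintro ⟨φ, h, x0, hx0⟩
  set H : TT F G v := ⟨img F G φ h, ⟨x0, hx0⟩, ⟨imgIso F G φ h⟩⟩ with hH
  refine ⟨(H, (imgIso F G φ h).trans (e0 F G v H).symm), ?_⟩
  apply Subtype.ext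
  ext x
  change (e0 F G v H (((imgIso F G φ h).trans (e0 F G v H).symm) x)).1 = φ x
  rw [RelIso.trans_apply, RelIso.apply_symm_apply]
  rfl

end CP

open CP

theorem t_Copy : St_Copy := by
  intro V W _ _ F G v
  have h1 : Nat.card (TT F G v × (F ≃g F)) = Nat.card (SS F G v) :=
    Nat.card_congr (Equiv.ofBijective _ ⟨mk'_injective F G v, mk'_surjective F G v⟩)
  have h2 : cov F G v = Nat.card (SS F G v) := by
    rw [cov, Nat.card_eq_fintype_card, Fintype.card_subtype]
    congr 1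
    ext φ
    rw [Finset.mem_filter, mem_homs, Finset.mem_filter]
    simp
  rw [h2, ← h1, Nat.card_prod, mul_comm]
  rfl

end Pool.Agent.NH44.HY
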