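import Mathlib

/-!
# Graphs irregular for all small patterns: definitions and the statements of the general lemmas

`homs F G` is the set of labelled copies of `F` in `G` (injective homomorphisms), `cov F G v` the
number of labelled copies whose image contains `v`, `P F G u v` the set of labelled copies that
contain `u` and avoid `v`.
-/

open Classical Finset

namespace Pool.Agent.NH44.HY

/-- The `F`-degree of the vertex `v` in `G`: the number of subgraphs of `G` that contain `v` and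
are isomorphic to `F`. -/
noncomputable def fDegree {V W : Type} (F : SimpleGraph W) (G : SimpleGraph V) (v : V) : ℕ :=
  Nat.card {H : G.Subgraph // v ∈ H.verts ∧ Nonempty (F ≃g H.coe)}

/-- Labelled copies of `F` in `G`. -/
noncomputable def homs {V W : Type} [Fintype V] [Fintype W] (F : SimpleGraph W)
    (G : SimpleGraph V) : Finset (W ↪ V) :=
  univ.filter fun φ => ∀ x y, F.Adj x y → G.Adj (φ x) (φ y)

/-- Labelled copies of `F` in `G` that contain `u` and avoid `v`. -/
noncomputable def P {V W : Type} [Fintype V] [Fintype W] (F : SimpleGraph W)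
    (G : SimpleGraph V) (u v : V) : Finset (W ↪ V) :=
  (homs F G).filter fun φ => (∃ x, φ x = u) ∧ ∀ x, φ x ≠ v

/-- The number of labelled copies of `F` in `G` that contain `v`. -/
noncomputable def cov {V W : Type} [Fintype V] [Fintype W] (F : SimpleGraph W)
    (G : SimpleGraph V) (v : V) : ℕ :=
  ((homs F G).filter fun φ => ∃ x, φ x = v).card

/-- The labelled copy `φ` of `F` uses the edge `a b`. -/
def Uses {V W : Type} (F : SimpleGraph W) (φ : W ↪ V) (a b : V) : Prop :=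
  ∃ x y, F.Adj x y ∧ φ x = a ∧ φ y = b

/-- The neighbours of `q'` that are not neighbours of `q`, apart from `u, v, q, q'`. -/
noncomputable def DD {V : Type} [Fintype V] (G : SimpleGraph V) (u v q q' : V) : Finset V :=
  univ.filter fun w => G.Adj q' w ∧ ¬ G.Adj q w ∧ w ≠ u ∧ w ≠ v ∧ w ≠ q ∧ w ≠ q'

/-- The labelled copies in `P F G u v` that use `u q` and an edge `q' t` with `t ∈ D`. -/
noncomputable def BB {V W : Type} [Fintype V] [Fintype W] (F : SimpleGraph W)
    (G : SimpleGraph V) (u v q q' : V) (D : Finset V) : Finset (W ↪ V) :=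
  (P F G u v).filter fun φ => Uses F φ u q ∧ ∃ t ∈ D, Uses F φ q' t

/-- The copies that survive on the other side in the comparison `St_Swap`. -/
noncomputable def EE {V W : Type} [Fintype V] [Fintype W] (F : SimpleGraph W)
    (G : SimpleGraph V) (u v q' : V) (D : Finset V) : Finset (W ↪ V) :=
  (P F G v u).filter fun φ => (∃ p, p ≠ u ∧ p ≠ q' ∧ ¬ G.Adj u p ∧ Uses F φ v p) ∨
    (Uses F φ v q' ∧ ∃ t ∈ D, Uses F φ q' t)

/-! ### The statements -/

/-- Labelled and unlabelled copies. -/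
def St_Copy : Prop := ∀ (V W : Type) [Fintype V] [Fintype W] (F : SimpleGraph W)
  (G : SimpleGraph V) (v : V), cov F G v = Nat.card (F ≃g F) * fDegree F G v

/-- Comparison of `u` and `v` when `N(u) ⊆ N(v)` apart from `q ∈ N(u)`, and `v ~ q'` for a vertex
`q'` that dominates `q`. -/
def St_Swap : Prop := ∀ (V W : Type) [Fintype V] [Fintype W] (F : SimpleGraph W)
  (G : SimpleGraph V) (u v q q' : V), u ≠ v → q ≠ q' → q ≠ u → q ≠ v → q' ≠ u → q' ≠ v →
  (∀ w, w ≠ v → w ≠ q → G.Adj u w → G.Adj v w) → G.Adj v q' → ¬ G.Adj u q' →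
  (∀ w, w ≠ u → w ≠ v → w ≠ q' → G.Adj q w → G.Adj q' w) →
  (P F G u v).card + (EE F G u v q' (DD G u v q q')).card ≤
    (P F G v u).card + (BB F G u v q q' (DD G u v q q')).card

/-- The same comparison in the other direction, for graphs `F` of maximal degree at most one. -/
def St_Back : Prop := ∀ (V W : Type) [Fintype V] [Fintype W] (F : SimpleGraph W)
  (G : SimpleGraph V) (u v q q' : V), (∀ x y z, F.Adj x y → F.Adj x z → y = z) →
  u ≠ v → q ≠ q' → q ≠ u → q ≠ v → q' ≠ u → q' ≠ v →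
  (∀ w, w ≠ u → w ≠ q' → G.Adj v w → G.Adj u w) → G.Adj u q → ¬ G.Adj v q →
  (∀ w, w ≠ u → w ≠ v → w ≠ q' → G.Adj q w → G.Adj q' w) →
  (P F G v u).card + (BB F G u v q q' (DD G u v q q')).card ≤ (P F G u v).card

/-- Nested neighbourhoods. -/
def St_Nest : Prop := ∀ (V W : Type) [Fintype V] [Fintype W] (F : SimpleGraph W)
  (G : SimpleGraph V) (u v : V), u ≠ v → (∀ w, w ≠ v → G.Adj u w → G.Adj v w) →
  (P F G u v).card + ((P F G v u).filter fun φ => ∃ p, p ≠ u ∧ ¬ G.Adj u p ∧ Uses F φ v p).card ≤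
    (P F G v u).card

/-- `N(u) ⊆ N(v)` apart from `g ∈ N(u)`; `v` has two more neighbours `p₁, p₂`, both dominated by
`g`. -/
def St_Ratio : Prop := ∀ (V W : Type) [Fintype V] [Fintype W] (F : SimpleGraph W)
  (G : SimpleGraph V) (u v g p₁ p₂ : V), u ≠ v → g ≠ u → g ≠ v → p₁ ≠ p₂ →
  p₁ ≠ u → p₁ ≠ v → p₁ ≠ g → p₂ ≠ u → p₂ ≠ v → p₂ ≠ g →
  (∀ w, w ≠ v → w ≠ g → G.Adj u w → G.Adj v w) →
  G.Adj v p₁ → G.Adj v p₂ → ¬ G.Adj u p₁ → ¬ G.Adj u p₂ →
  (∀ w, w ≠ u → w ≠ v → w ≠ g → G.Adj p₁ w → G.Adj g w) →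
  (∀ w, w ≠ u → w ≠ v → w ≠ g → G.Adj p₂ w → G.Adj g w) →
  (P F G u v).card + ((P F G u v).filter fun φ => Uses F φ u g).card ≤
    (P F G v u).card + (BB F G u v g g (DD G u v p₁ g)).card
      + (BB F G u v g g (DD G u v p₂ g)).card

/-- Replacing one vertex `t ∈ D` by a dominating vertex `r ∈ R`. -/
def St_Repl : Prop := ∀ (V W : Type) [Fintype V] [Fintype W] (F : SimpleGraph W)
  (G : SimpleGraph V) (u v g : V) (D R : Finset V), u ∉ D → g ∉ D → v ∉ R →
  (∀ t ∈ D, ∀ r ∈ R, ∀ w, w ≠ r → G.Adj t w → G.Adj r w) →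
  (BB F G u v g g D).card * (R.card - Fintype.card W) ≤
    Fintype.card W * D.card * ((P F G u v).filter fun φ => Uses F φ u g).card

/-- Lower bound for the number of extensions of a map on `S` into a clique `R`. -/
def St_Ext : Prop := ∀ (V W : Type) [Fintype V] [Fintype W] (F : SimpleGraph W)
  (G : SimpleGraph V) (S : Finset W) (b : W → V) (R : Finset V),
  (∀ x ∈ S, ∀ y ∈ S, b x = b y → x = y) → (∀ x ∈ S, b x ∉ R) →
  (∀ r ∈ R, ∀ r' ∈ R, r ≠ r' → G.Adj r r') →
  (∀ x ∈ S, ∀ y ∈ S, F.Adj x y → G.Adj (b x) (b y)) →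
  (∀ x ∈ S, ∀ y, y ∉ S → F.Adj x y → ∀ r ∈ R, G.Adj (b x) r) →
  (R.card + 1 - Fintype.card W) ^ (Fintype.card W - S.card) ≤
    ((homs F G).filter fun φ => (∀ x ∈ S, φ x = b x) ∧ ∀ x, x ∉ S → φ x ∈ R).card

/-- Upper bound for the exceptional copies. -/
def St_Up : Prop := ∀ (V W : Type) [Fintype V] [Fintype W] (F : SimpleGraph W)
  (G : SimpleGraph V) (u v q q' : V) (D : Finset V), u ≠ q → u ≠ q' → q ≠ q' →
  (∀ t ∈ D, t ≠ u ∧ t ≠ q ∧ t ≠ q') →
  (Fintype.card W < 4 → (BB F G u v q q' D).card = 0) ∧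
  (BB F G u v q q' D).card ≤ D.card * (Fintype.card W) ^ 4 * (Fintype.card V) ^ (Fintype.card W - 4)

/-- Bookkeeping: `cov u + |P v u| = cov v + |P u v|`. -/
def St_Cov : Prop := ∀ (V W : Type) [Fintype V] [Fintype W] (F : SimpleGraph W)
  (G : SimpleGraph V) (u v : V), cov F G u + (P F G v u).card = cov F G v + (P F G u v).card

end Pool.Agent.NH44.HY
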