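import Pool.Agent.NH44.HY.Low

/-!
# Counting extensions, and the upper bound for the exceptional copies
-/

open Classical Finset

namespace Pool.Agent.NH44.HY

namespace EX

variable {V W : Type} [Fintype V] [Fintype W]

/-- The extension of `b` on `S` by `e` outside. -/
noncomputable def ext (S : Finset W) (b : W → V) (R : Finset V)
    (hb : ∀ x ∈ S, ∀ y ∈ S, b x = b y → x = y) (hbR : ∀ x ∈ S, b x ∉ R)
    (e : {x // x ∉ S} ↪ {r // r ∈ R}) : W ↪ V where
  toFun x := if h : x ∈ S then b x else (e ⟨x, h⟩).1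
  inj' := by
    intro x y hxy
    simp only at hxy
    by_cases hx : x ∈ S
    · by_cases hy : y ∈ S
      · rw [dif_pos hx, dif_pos hy] at hxy
        exact hb x hx y hy hxy
      · rw [dif_pos hx, dif_neg hy] at hxy
        exact absurd (hxy ▸ (e ⟨y, hy⟩).2) (hbR x hx)
    · by_cases hy : y ∈ S
      · rw [dif_neg hx, dif_pos hy] at hxy
        exact absurd (hxy ▸ (e ⟨x, hx⟩).2) (hbR y hy)
      · rw [dif_neg hx, dif_neg hy] at hxy
        have := e.injective (Subtype.ext hxy)
        exact congrArg Subtype.val this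

theorem ext_pos {S : Finset W} {b : W → V} {R : Finset V} {hb hbR}
    (e : {x // x ∉ S} ↪ {r // r ∈ R}) {x : W} (hx : x ∈ S) : ext S b R hb hbR e x = b x :=
  dif_pos hx

theorem ext_neg {S : Finset W} {b : W → V} {R : Finset V} {hb hbR}
    (e : {x // x ∉ S} ↪ {r // r ∈ R}) {x : W} (hx : x ∉ S) :
    ext S b R hb hbR e x = (e ⟨x, hx⟩).1 :=
  dif_neg hx

end EX

open EX

theorem t_Ext : St_Ext := by
  intro V W _ _ F G S b R hb hbR hR hS hSR
  have h1 : Fintype.card ({x // x ∉ S} ↪ {r // r ∈ R}) =
      R.card.descFactorial (Fintype.card W - S.card) := by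
    rw [Fintype.card_embedding_eq]
    congr 1
    · simp
    · simp
  have h2 : (R.card + 1 - Fintype.card W) ^ (Fintype.card W - S.card) ≤
      R.card.descFactorial (Fintype.card W - S.card) := by
    refine le_trans (Nat.pow_le_pow_left ?_ _) (Nat.pow_sub_le_descFactorial _ _)
    omega
  refine h2.trans ?_
  rw [← h1, ← Finset.card_univ]
  refine Finset.card_le_card_of_injOn (fun e => ext S b R hb hbR e) ?_ ?_
  · intro e _
    rw [Finset.mem_coe, Finset.mem_filter, mem_homs]
    refine ⟨?_, fun x hx => ext_pos e hx, ?_⟩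
    · intro x y hxy
      by_cases hx : x ∈ S
      · by_cases hy : y ∈ S
        · rw [ext_pos e hx, ext_pos e hy]
          exact hS x hx y hy hxy
        · rw [ext_pos e hx, ext_neg e hy]
          exact hSR x hx y hy hxy _ (e ⟨y, hy⟩).2
      · by_cases hy : y ∈ S
        · rw [ext_neg e hx, ext_pos e hy]
          exact (hSR y hy x hx hxy.symm _ (e ⟨x, hx⟩).2).symm
        · rw [ext_neg e hx, ext_neg e hy]
          refine hR _ (e ⟨x, hx⟩).2 _ (e ⟨y, hy⟩).2 ?_
          intro h
          have := e.injective (Subtype.ext h)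
          exact hxy.ne (congrArg Subtype.val this)
    · intro x hx
      rw [ext_neg e hx]
      exact (e ⟨x, hx⟩).2
  · intro e _ e' _ h
    ext ⟨x, hx⟩
    have := DFunLike.congr_fun h x
    simp only at this
    rw [ext_neg e hx, ext_neg e' hx] at this
    exact this

/-- Embeddings with prescribed values on `S`. -/
theorem card_fix {V W : Type} [Fintype V] [Fintype W] (S : Finset W) (b : W → V) :
    ((univ : Finset (W ↪ V)).filter fun φ => ∀ x ∈ S, φ x = b x).card ≤
      Fintype.card V ^ (Fintype.card W - S.card) := by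
  have h1 : Fintype.card ({x // x ∉ S} → V) = Fintype.card V ^ (Fintype.card W - S.card) := by
    rw [Fintype.card_fun]
    congr 1
    simp
  rw [← h1, ← Finset.card_univ]
  refine Finset.card_le_card_of_injOn (fun φ (x : {x // x ∉ S}) => φ x.1) ?_ ?_
  · intro φ _
    exact Finset.mem_coe.2 (Finset.mem_univ _)
  · intro φ hφ ψ hψ h
    rw [Finset.mem_coe, Finset.mem_filter] at hφ hψ
    ext x
    by_cases hx : x ∈ S
    · rw [hφ.2 x hx, hψ.2 x hx]
    · exact congrFun h ⟨x, hx⟩

theorem t_Up : St_Up := by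
  intro V W _ _ F G u v q q' D huq huq' hqq hD
  -- every element of BB gives four distinct elements of W
  have h4 : ∀ φ ∈ BB F G u v q q' D, ∃ x y x' y' : W, ∃ t ∈ D, φ x = u ∧ φ y = q ∧ φ x' = q' ∧
      φ y' = t ∧ ({x, y, x', y'} : Finset W).card = 4 := by
    intro φ hφ
    rw [BB, Finset.mem_filter] at hφ
    obtain ⟨_, ⟨x, y, _, hx, hy⟩, t, ht, x', y', _, hx', hy'⟩ := hφ
    obtain ⟨t1, t2, t3⟩ := hD t ht
    refine ⟨x, y, x', y', t, ht, hx, hy, hx', hy', ?_⟩
    have e1 : x ≠ y := by rintro rfl; exact huq (hx.symm.trans hy)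
    have e2 : x ≠ x' := by rintro rfl; exact huq' (hx.symm.trans hx')
    have e3 : x ≠ y' := by rintro rfl; exact t1 (hy'.symm.trans hx)
    have e4 : y ≠ x' := by rintro rfl; exact hqq (hy.symm.trans hx')
    have e5 : y ≠ y' := by rintro rfl; exact t2 (hy'.symm.trans hy)
    have e6 : x' ≠ y' := by rintro rfl; exact t3 (hy'.symm.trans hx')
    rw [Finset.card_insert_of_notMem, Finset.card_eq_three.2 ⟨y, x', y', e4, e5, e6, rfl⟩]
    simp [e1, e2, e3]
  refine ⟨?_, ?_⟩
  · intro hW
    rw [Finset.card_eq_zero, Finset.eq_empty_iff_forall_notMem]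
    intro φ hφ
    obtain ⟨x, y, x', y', t, ht, _, _, _, _, hc⟩ := h4 φ hφ
    have := Finset.card_le_univ ({x, y, x', y'} : Finset W)
    omega
  · set I : Finset ((W × W × W × W) × V) := (univ : Finset (W × W × W × W)) ×ˢ D with hI
    set J : ((W × W × W × W) × V) → Finset (W ↪ V) := fun i =>
      univ.filter fun φ => φ i.1.1 = u ∧ φ i.1.2.1 = q ∧ φ i.1.2.2.1 = q' ∧ φ i.1.2.2.2 = i.2 ∧
        ({i.1.1, i.1.2.1, i.1.2.2.1, i.1.2.2.2} : Finset W).card = 4 with hJ
    have hsub : BB F G u v q q' D ⊆ I.biUnion J := by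
      intro φ hφ
      obtain ⟨x, y, x', y', t, ht, h1, h2, h3, h4, hc⟩ := h4 φ hφ
      rw [Finset.mem_biUnion]
      refine ⟨((x, y, x', y'), t), ?_, ?_⟩
      · rw [hI, Finset.mem_product]
        exact ⟨Finset.mem_univ _, ht⟩
      · rw [hJ, Finset.mem_filter]
        exact ⟨Finset.mem_univ _, h1, h2, h3, h4, hc⟩
    have hJc : ∀ i ∈ I, (J i).card ≤ Fintype.card V ^ (Fintype.card W - 4) := by
      rintro ⟨⟨x, y, x', y'⟩, t⟩ _
      by_cases hc : ({x, y, x', y'} : Finset W).card = 4
      · rcases (J ((x, y, x', y'), t)).eq_empty_or_nonempty with h0 | ⟨ψ, hψ⟩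
        · rw [h0]; simp
        · have := card_fix ({x, y, x', y'} : Finset W) (fun z => ψ z)
          rw [hc] at this
          refine le_trans (Finset.card_le_card ?_) this
          intro φ hφ
          rw [hJ, Finset.mem_filter] at hφ hψ
          obtain ⟨_, a1, a2, a3, a4, _⟩ := hφ
          obtain ⟨_, b1, b2, b3, b4, _⟩ := hψ
          simp only at a1 a2 a3 a4 b1 b2 b3 b4
          rw [Finset.mem_filter]
          refine ⟨Finset.mem_univ _, ?_⟩
          intro z hz
          simp only [Finset.mem_insert, Finset.mem_singleton] at hz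
          rcases hz with rfl | rfl | rfl | rfl
          · rw [a1, b1]
          · rw [a2, b2]
          · rw [a3, b3]
          · rw [a4, b4]
      · have : J ((x, y, x', y'), t) = ∅ := by
          rw [Finset.eq_empty_iff_forall_notMem]
          intro φ hφ
          rw [hJ, Finset.mem_filter] at hφ
          exact hc hφ.2.2.2.2.2
        rw [this]; simp
    refine (Finset.card_le_card hsub).trans ?_
    refine (Finset.card_biUnion_le_card_mul _ _ _ hJc).trans ?_
    have hIc : I.card = D.card * Fintype.card W ^ 4 := by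
      rw [hI, Finset.card_product]
      simp only [Finset.card_univ, Fintype.card_prod]
      ring
    rw [hIc]

end Pool.Agent.NH44.HY
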