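import Pool.Agent.NH44.HY.Low

/-!
# Replacing one vertex by a dominating vertex
-/

open Classical Finset

namespace Pool.Agent.NH44.HY

namespace RP

variable {V W : Type} [Fintype V] [Fintype W]

/-- Replace the value at `x` by `r` (if `r` is not in the range). -/
noncomputable def upd (φ : W ↪ V) (x : W) (r : V) : W ↪ V :=
  if h : ∀ y, φ y ≠ r then
    ⟨fun y => if y = x then r else φ y, by
      intro a b hab
      simp only at hab
      by_cases ha : a = x
      · by_cases hb : b = x
        · rw [ha, hb]
        · rw [if_pos ha, if_neg hb] at hab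
          exact absurd hab.symm (h b)
      · by_cases hb : b = x
        · rw [if_neg ha, if_pos hb] at hab
          exact absurd hab (h a)
        · rw [if_neg ha, if_neg hb] at hab
          exact φ.injective hab⟩
  else φ

theorem upd_self {φ : W ↪ V} {x : W} {r : V} (h : ∀ y, φ y ≠ r) : upd φ x r x = r := by
  rw [upd, dif_pos h]
  exact if_pos rfl

theorem upd_ne {φ : W ↪ V} {x y : W} {r : V} (h : ∀ y, φ y ≠ r) (hy : y ≠ x) :
    upd φ x r y = φ y := by
  rw [upd, dif_pos h]
  exact if_neg hy

end RP

open RP

theorem t_Repl : St_Repl := by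
  intro V W _ _ F G u v g D R huD hgD hvR hdom
  set T := (P F G u v).filter fun φ => Uses F φ u g with hT
  set B := BB F G u v g g D with hB
  set m := R.card - Fintype.card W with hm
  have hx : ∀ x : W, (B.filter fun φ => φ x ∈ D).card * m ≤ D.card * T.card := by
    intro x
    set S : Finset (Σ _ : (W ↪ V), V) := (B.filter fun φ => φ x ∈ D).sigma
      (fun φ => R.filter fun r => ∀ y, φ y ≠ r) with hS
    have h1 : (B.filter fun φ => φ x ∈ D).card * m ≤ S.card := by
      rw [hS, Finset.card_sigma]
      calc (B.filter fun φ => φ x ∈ D).card * m = ∑ _φ ∈ (B.filter fun φ => φ x ∈ D), m := by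
            rw [Finset.sum_const, smul_eq_mul]
        _ ≤ _ := by
          refine Finset.sum_le_sum ?_
          intro φ _
          have : R ⊆ (R.filter fun r => ∀ y, φ y ≠ r) ∪ Finset.univ.image φ := by
            intro r hr
            rw [Finset.mem_union, Finset.mem_filter, Finset.mem_image]
            by_cases h : ∀ y, φ y ≠ r
            · exact Or.inl ⟨hr, h⟩
            · push Not at h
              obtain ⟨y, hy⟩ := h
              exact Or.inr ⟨y, Finset.mem_univ _, hy⟩
          have h2 := Finset.card_le_card this
          have h3 := Finset.card_union_le (R.filter fun r => ∀ y, φ y ≠ r) (Finset.univ.image φ)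
          have h4 : (Finset.univ.image φ).card ≤ Fintype.card W := Finset.card_image_le
          omega
    have h2 : S.card ≤ (D ×ˢ T).card := by
      refine Finset.card_le_card_of_injOn (fun p => (p.1 x, upd p.1 x p.2)) ?_ ?_
      · rintro ⟨φ, r⟩ hp
        rw [Finset.mem_coe, hS, Finset.mem_sigma, Finset.mem_filter, Finset.mem_filter] at hp
        obtain ⟨⟨hφ, hφx⟩, hr, hne⟩ := hp
        simp only at hφ hφx hr hne
        rw [Finset.mem_coe, Finset.mem_product]
        refine ⟨hφx, ?_⟩
        rw [hB, BB, Finset.mem_filter, mem_P] at hφ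
        obtain ⟨⟨k1, ⟨x1, hx1⟩, k3⟩, ⟨x0, y0, hxy0, hx0, hy0⟩, _⟩ := hφ
        have n1 : x1 ≠ x := by
          rintro rfl; rw [hx1] at hφx; exact huD hφx
        have n2 : x0 ≠ x := by
          rintro rfl; rw [hx0] at hφx; exact huD hφx
        have n3 : y0 ≠ x := by
          rintro rfl; rw [hy0] at hφx; exact hgD hφx
        change upd φ x r ∈ T
        rw [hT, Finset.mem_filter, mem_P]
        refine ⟨⟨?_, ⟨x1, ?_⟩, ?_⟩, x0, y0, hxy0, ?_, ?_⟩
        · intro a b hab
          by_cases ha : a = x
          · have hb : b ≠ x := fun h => hab.ne (ha.trans h.symm)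
            rw [ha, upd_self hne, upd_ne hne hb]
            refine hdom (φ x) hφx r hr (φ b) (hne b) ?_
            rw [← ha]; exact k1 a b hab
          · by_cases hb : b = x
            · rw [hb, upd_self hne, upd_ne hne ha]
              refine (hdom (φ x) hφx r hr (φ a) (hne a) ?_).symm
              rw [← hb]; exact (k1 a b hab).symm
            · rw [upd_ne hne ha, upd_ne hne hb]
              exact k1 a b hab
        · rw [upd_ne hne n1]; exact hx1
        · intro a ha
          by_cases hax : a = x
          · rw [hax, upd_self hne] at ha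
            exact hvR (ha ▸ hr)
          · rw [upd_ne hne hax] at ha
            exact k3 a ha
        · rw [upd_ne hne n2]; exact hx0
        · rw [upd_ne hne n3]; exact hy0
      · rintro ⟨φ, r⟩ hp ⟨ψ, r'⟩ hp' h
        rw [Finset.mem_coe, hS, Finset.mem_sigma, Finset.mem_filter, Finset.mem_filter] at hp hp'
        obtain ⟨_, _, hne⟩ := hp
        obtain ⟨_, _, hne'⟩ := hp'
        simp only [Prod.mk.injEq] at h hne hne'
        obtain ⟨e1, e2⟩ := h
        have hφψ : φ = ψ := by
          ext y
          by_cases hy : y = x
          · rw [hy]; exact e1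
          · have := DFunLike.congr_fun e2 y
            rw [upd_ne hne hy, upd_ne hne' hy] at this
            exact this
        have hr : r = r' := by
          have := DFunLike.congr_fun e2 x
          rw [upd_self hne, upd_self hne'] at this
          exact this
        rw [hφψ, hr]
    rw [Finset.card_product] at h2
    exact h1.trans h2
  have hcov : B ⊆ Finset.univ.biUnion fun x : W => B.filter fun φ => φ x ∈ D := by
    intro φ hφ
    have hφ' := hφ
    rw [hB, BB, Finset.mem_filter] at hφ'
    obtain ⟨_, _, t, ht, x, y, _, _, hy⟩ := hφ'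
    rw [Finset.mem_biUnion]
    exact ⟨y, Finset.mem_univ _, Finset.mem_filter.2 ⟨hφ, by rw [hy]; exact ht⟩⟩
  calc B.card * m ≤ (∑ x : W, (B.filter fun φ => φ x ∈ D).card) * m :=
        Nat.mul_le_mul_right _ ((Finset.card_le_card hcov).trans Finset.card_biUnion_le)
    _ = ∑ x : W, (B.filter fun φ => φ x ∈ D).card * m := Finset.sum_mul _ _ _
    _ ≤ ∑ _x : W, D.card * T.card := Finset.sum_le_sum fun x _ => hx x
    _ = Fintype.card W * D.card * T.card := by
      rw [Finset.sum_const, smul_eq_mul, Finset.card_univ, mul_assoc]

end Pool.Agent.NH44.HY
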