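import Pool.Agent.NH44.HY.Graph2
import Pool.Agent.NH44.HY.Back
import Pool.Agent.NH44.HY.Ext
import Pool.Agent.NH44.HY.Repl
import Pool.Agent.NH44.HY.Copy

/-!
# All the numbers of copies are different
-/

open Classical Finset

namespace Pool.Agent.NH44.HY

/-- Sequences that increase apart from one step. -/
theorem inj_one {f : ℕ → ℕ} {N J : ℕ} (hJ : 1 ≤ J) (hJN : J + 2 < N)
    (h1 : ∀ a, a + 1 < N → a ≠ J → f a < f (a + 1)) (h2 : f (J + 1) < f J)
    (h3 : f (J - 1) < f (J + 1)) (h4 : f J < f (J + 2)) :
    ∀ a b, a < b → b < N → f a ≠ f b := by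
  have key : ∀ b a, a < b → b < N → ¬ (a = J ∧ b = J + 1) → f a < f b := by
    intro b
    induction b using Nat.strong_induction_on with
    | _ b ih =>
      intro a hab hb hne
      by_cases h : b = a + 1
      · subst h
        exact h1 a hb (fun h => hne ⟨h, by rw [h]⟩)
      · obtain ⟨b', rfl⟩ : ∃ b', b = b' + 1 := ⟨b - 1, by omega⟩
        by_cases hb' : b' = J
        · subst hb'
          by_cases ha : a = b' - 1
          · rw [ha]; exact h3
          · exact (ih (b' - 1) (by omega) a (by omega) (by omega) (by omega)).trans h3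
        · by_cases ha : a = J ∧ b' = J + 1
          · obtain ⟨rfl, rfl⟩ := ha
            exact h4
          · exact (ih b' (by omega) a (by omega) (by omega) ha).trans (h1 b' hb hb')
  intro a b hab hb
  by_cases h : a = J ∧ b = J + 1
  · obtain ⟨rfl, rfl⟩ := h
    exact h2.ne'
  · exact (key b a hab hb h).ne

/-- Sequences with large increasing steps and few small steps. -/
theorem inj_two {f : ℕ → ℕ} {l s c J J2 Y Z : ℕ} (hs : 1 ≤ s) (hsJ : s < J) (hJJ : J + 1 < J2)
    (hJ2 : J2 + 1 < 2 * l) (hZ : (c + 2) * Y < Z)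
    (hbig : ∀ a, a < 2 * l → a ≠ s - 1 → a ≠ J → a ≠ J2 → f a + Z ≤ f (a + 1) + Y)
    (hw1 : f (s - 1) < f (s - 1 + 1)) (hw2 : f J < f (J + 1))
    (hsm : ∀ a, a < 2 * l + c → (a = J2 ∨ 2 * l ≤ a) →
      f (a + 1) < f a ∧ f a ≤ f (a + 1) + Y) :
    ∀ a b, a < b → b < 2 * l + c + 1 → f a ≠ f b := by
  set σ : ℕ → ℕ := fun a => (if J2 < a then 1 else 0) + (a - 2 * l) with hσ
  have hYZ : Y ≤ Z := by nlinarith
  have hstep : ∀ a, a < 2 * l + c → f a + Y * σ a ≤ f (a + 1) + Y * σ (a + 1) := by
    intro a ha
    by_cases h1 : a = J2 ∨ 2 * l ≤ a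
    · have h2 := (hsm a ha h1).2
      have h3 : σ (a + 1) = σ a + 1 := by
        simp only [hσ]
        split_ifs <;> omega
      rw [h3]; linarith
    · push Not at h1
      have h3 : σ (a + 1) = σ a := by
        simp only [hσ]
        split_ifs <;> omega
      rw [h3]
      by_cases h4 : a = s - 1
      · subst h4; linarith
      · by_cases h5 : a = J
        · subst h5; linarith
        · have := hbig a h1.2 h4 h5 h1.1
          linarith
  have hmono : ∀ b a, a ≤ b → b < 2 * l + c + 1 → f a + Y * σ a ≤ f b + Y * σ b := by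
    intro b
    induction b with
    | zero => intro a ha _; rw [Nat.le_zero.1 ha]
    | succ b ih =>
      intro a ha hb
      rcases Nat.lt_or_ge a (b + 1) with h | h
      · exact (ih a (by omega) (by omega)).trans (hstep b (by omega))
      · rw [le_antisymm ha h]
  have hdec : ∀ b a, 2 * l ≤ a → a < b → b < 2 * l + c + 1 → f b < f a := by
    intro b
    induction b with
    | zero => intro a _ h; omega
    | succ b ih =>
      intro a ha hab hb
      have h1 := (hsm b (by omega) (Or.inr (by omega))).1
      rcases Nat.lt_or_ge a b with h | h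
      · exact h1.trans (ih a ha h (by omega))
      · have : a = b := by omega
        rw [this]; exact h1
  intro a b hab hb
  by_cases hex : ∃ e, a ≤ e ∧ e < b ∧ e < 2 * l ∧ e ≠ s - 1 ∧ e ≠ J ∧ e ≠ J2
  · obtain ⟨e, he1, he2, he3, he4, he5, he6⟩ := hex
    have k1 := hmono e a he1 (by omega)
    have k2 := hbig e he3 he4 he5 he6
    have k3 := hmono b (e + 1) (by omega) hb
    have k4 : σ (e + 1) = σ e := by
      simp only [hσ]
      split_ifs <;> omega
    have k5 : σ b ≤ c + 1 := by
      simp only [hσ]
      split_ifs <;> omega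
    rw [k4] at k3
    have k6 : Y * σ b ≤ Y * (c + 1) := Nat.mul_le_mul_left _ k5
    have k7 : (c + 2) * Y = Y * (c + 1) + Y := by ring
    have k8 : 0 ≤ Y * σ a := Nat.zero_le _
    intro heq
    rw [heq] at k1
    linarith
  · push Not at hex
    by_cases h1 : 2 * l ≤ a
    · exact (hdec b a h1 hab hb).ne'
    · push Not at h1
      have h2 := hex a le_rfl hab h1
      have h3 : a = s - 1 ∨ a = J ∨ a = J2 := by
        by_contra hcon
        push Not at hcon
        exact hcon.2.2 (h2 hcon.1 hcon.2.1)
      have hb1 : b = a + 1 := by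
        by_contra hcon
        have h4 := hex (a + 1) (by omega) (by omega) (by omega)
        rcases h3 with h3 | h3 | h3
        · have := h4 (by omega) (by omega); omega
        · have := h4 (by omega) (by omega); omega
        · have := h4 (by omega) (by omega); omega
      subst hb1
      rcases h3 with h3 | h3 | h3
      · subst h3; exact hw1.ne
      · subst h3; exact hw2.ne
      · exact (hsm a (by omega) (Or.inl h3)).1.ne'

/-- The numbers of labelled copies at different vertices are different. -/
theorem cov_injective {W : Type} [Fintype W] (F : SimpleGraph W) (l s c n X : ℕ)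
    (hW : Fintype.card W ≤ n) (hc : c = n + 4) (hs : c + n + 10 ≤ s)
    (hl : 10 * s + 10 * c + 50 ≤ l)
    (hl2 : 2 * (n * (c + s + 5)) + 2 * c + 3 * s + n + 30 ≤ l)
    (hX : X + n + 4 ≤ s) (hX1 : 1 ≤ X)
    (hXX : 4 ≤ Fintype.card W →
      (Fintype.card W) ^ 4 * (2 * l + c + 1) ^ (Fintype.card W - 4) < X ^ (Fintype.card W - 3))
    (hXY : 4 ≤ Fintype.card W →
      (c + 2) * ((Fintype.card W) ^ 4 * (2 * l + c + 1) ^ (Fintype.card W - 3)) <
        X ^ (Fintype.card W - 2))
    {x y x' y' : W} (hxy : F.Adj x y) (hxy' : F.Adj x' y') (hne : s(x, y) ≠ s(x', y')) :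
    ∀ a b : Fin (2 * l + c + 1), a ≠ b → cov F (GG l s c) a ≠ cov F (GG l s c) b := by
  set f : ℕ → ℕ := fun a => if h : a < 2 * l + c + 1 then cov F (GG l s c) ⟨a, h⟩ else 0 with hf
  have hfa : ∀ a (h : a < 2 * l + c + 1), f a = cov F (GG l s c) ⟨a, h⟩ := by
    intro a h; rw [hf]; simp only; rw [dif_pos h]
  suffices hmain : ∀ a b, a < b → b < 2 * l + c + 1 → f a ≠ f b by
    rintro ⟨a, ha⟩ ⟨b, hb⟩ hab
    have hab' : a ≠ b := fun h => hab (by subst h; rfl)
    rw [← hfa a ha, ← hfa b hb]
    rcases Nat.lt_or_ge a b with h | h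
    · exact hmain a b h hb
    · exact (hmain b a (by omega) ha).symm
  -- the steps
  have s2 : f (s - 1) < f (s - 1 + 1) := by
    rw [hfa _ (by omega), hfa _ (by omega)]
    exact T2 F l s c n t_Ext t_Ratio t_Repl t_Cov hxy hW hs hl hl2 (s - 1) (by omega)
  have s4 : ∀ a, a + 1 = l → f a + X ^ (Fintype.card W - 2) ≤ f (a + 1) := by
    intro a ha
    rw [hfa _ (by omega), hfa _ (by omega)]
    exact T4 F l s c n X t_Ext t_Nest t_Cov hxy hW hs hl hX a ha
  have s5 : ∀ a, l ≤ a → a + 1 ≤ l + c + s → f a + X ^ (Fintype.card W - 2) ≤ f (a + 1) := by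
    intro a ha ha'
    rw [hfa _ (by omega), hfa _ (by omega)]
    exact T5 F l s c n X t_Ext t_Nest t_Cov hxy hW hs hl hX a ha ha'
  by_cases mt : ∀ x y z, F.Adj x y → F.Adj x z → y = z
  · -- maximal degree one
    have a1 : x ≠ x' := by
      rintro rfl
      exact hne (by rw [mt _ _ _ hxy hxy'])
    have a2 : x ≠ y' := by
      rintro rfl
      exact hne (by rw [mt _ _ _ hxy hxy'.symm, Sym2.eq_swap])
    have a3 : y ≠ x' := by
      rintro rfl
      exact hne (by rw [mt _ _ _ hxy.symm hxy', Sym2.eq_swap])
    have a4 : y ≠ y' := by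
      rintro rfl
      exact hne (by rw [mt _ _ _ hxy.symm hxy'.symm])
    have hk : 4 ≤ Fintype.card W := by
      have h4 : ({x, y, x', y'} : Finset W).card = 4 := by
        rw [Finset.card_insert_of_notMem,
          Finset.card_eq_three.2 ⟨y, x', y', a3, a4, hxy'.ne, rfl⟩]
        simp [hxy.ne, a1, a2]
      rw [← h4]; exact Finset.card_le_univ _
    set Y := (Fintype.card W) ^ 4 * (2 * l + c + 1) ^ (Fintype.card W - 3) with hY
    refine inj_two (l := l) (s := s) (c := c) (J := l + c + s) (J2 := 2 * l - 1 - s) (Y := Y)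
      (Z := X ^ (Fintype.card W - 2)) (by omega) (by omega) (by omega) (by omega) (hXY hk)
      ?_ s2 ?_ ?_
    · intro a ha h1 h2 h3
      rcases Nat.lt_or_ge a (s - 1) with h | h
      · have := T1m F l s c n X t_Ext t_Nest t_Cov hxy mt hW hs hl hX a (by omega)
        rw [hfa _ (by omega), hfa _ (by omega)]
        omega
      · rcases Nat.lt_or_ge (a + 1) l with h' | h'
        · have := T3 F l s c n X Y t_Ext t_Swap t_Cov t_Up hxy hW hs hl hX (fun _ => le_rfl) a
            (by omega) (by omega)
          rw [hfa _ (by omega), hfa _ (by omega)]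
          exact this
        · rcases Nat.eq_or_lt_of_le h' with h'' | h''
          · have := s4 a h''.symm; omega
          · rcases Nat.lt_or_ge a (l + c + s) with k | k
            · have := s5 a (by omega) (by omega); omega
            · have := T7b F l s c n X Y t_Ext t_Swap t_Cov t_Up mt hxy hW hs hl hX
                (fun _ => le_rfl) a (by omega) (by omega) h3
              rw [hfa _ (by omega), hfa _ (by omega)]
              exact this
    · rw [hfa _ (by omega), hfa _ (by omega)]
      exact T6m F l s c n t_Ext t_Swap t_Back t_Cov t_Up mt hxy hxy' a1 a2 a3 a4 hW hs hl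
        (l + c + s) rfl
    · intro a ha h
      rw [hfa _ (by omega), hfa _ (by omega)]
      exact T7s F l s c n Y t_Ext t_Swap t_Back t_Cov t_Up mt hxy hxy' a1 a2 a3 a4 hW hs hl
        (fun _ => le_rfl) a (by omega) (by omega) h
  · -- a path with two edges
    push Not at mt
    obtain ⟨p, o, q, hpo, hpq, hoq⟩ := mt
    have hcard3 : 3 ≤ Fintype.card W := by
      have h3 : ({p, o, q} : Finset W).card = 3 :=
        Finset.card_eq_three.2 ⟨p, o, q, hpo.ne, hpq.ne, hoq, rfl⟩
      rw [← h3]; exact Finset.card_le_univ _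
    have hYX : (if 4 ≤ Fintype.card W then
        (Fintype.card W) ^ 4 * (2 * l + c + 1) ^ (Fintype.card W - 3) else 0) <
          X ^ (Fintype.card W - 2) := by
      split_ifs with h
      · refine lt_of_le_of_lt ?_ (hXY h)
        exact Nat.le_mul_of_pos_left _ (by omega)
      · exact pow_pos hX1 _
    set Y := (if 4 ≤ Fintype.card W then
        (Fintype.card W) ^ 4 * (2 * l + c + 1) ^ (Fintype.card W - 3) else 0) with hY
    have hY' : 4 ≤ Fintype.card W →
        (Fintype.card W) ^ 4 * (2 * l + c + 1) ^ (Fintype.card W - 3) ≤ Y := by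
      intro h
      rw [hY, if_pos h]
    have hXpos : 0 < X ^ (Fintype.card W - 2) := pow_pos hX1 _
    refine inj_one (N := 2 * l + c + 1) (J := l + c + s) (by omega) (by omega) ?_ ?_ ?_ ?_
    · intro a ha hJ
      rcases Nat.lt_or_ge a (s - 1) with h | h
      · have := T1 F l s c n t_Ext t_Nest t_Cov hxy hW hc hs hl a (by omega)
        rw [hfa _ (by omega), hfa _ (by omega)]
        omega
      · rcases Nat.eq_or_lt_of_le h with h0 | h0
        · rw [← h0]; exact s2
        · rcases Nat.lt_or_ge (a + 1) l with h' | h'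
          · have := T3 F l s c n X Y t_Ext t_Swap t_Cov t_Up hxy hW hs hl hX hY' a
              (by omega) (by omega)
            rw [hfa _ (by omega), hfa _ (by omega)]
            omega
          · rcases Nat.eq_or_lt_of_le h' with h'' | h''
            · have := s4 a h''.symm; omega
            · rcases Nat.lt_or_ge a (l + c + s) with k | k
              · have := s5 a (by omega) (by omega); omega
              · rw [hfa _ (by omega), hfa _ (by omega)]
                exact T7c F l s c n X t_Ext t_Swap t_Cov t_Up hpo.symm hpq hoq hW hs hl hX hX1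
                  hXX a (by omega) (by omega)
    · rw [hfa _ (by omega), hfa _ (by omega)]
      exact T6c F l s c n X t_Ext t_Swap t_Cov t_Up hpo.symm hpq hoq hW hs hl hX hX1
        hXX (l + c + s) rfl
    · rw [hfa _ (by omega), hfa _ (by omega)]
      have := T8 F l s c n t_Ext t_Ratio t_Repl t_Cov hxy hW hs hl hl2 (l + c + s - 1)
        (Or.inl rfl)
      have e : (⟨l + c + s - 1 + 2, by omega⟩ : Fin (2 * l + c + 1)) =
          ⟨l + c + s + 1, by omega⟩ := by
        apply Fin.ext; simp only; omega
      rw [e] at this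
      exact this
    · rw [hfa _ (by omega), hfa _ (by omega)]
      exact T8 F l s c n t_Ext t_Ratio t_Repl t_Cov hxy hW hs hl hl2 (l + c + s)
        (Or.inr rfl)

end Pool.Agent.NH44.HY
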