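import Pool.Agent.NH44.HY.Steps

/-!
# The graphs

The vertices are `0, …, 2l + c`. The vertices `≥ l` form a clique, those `< l` an independent set,
and `a < l ≤ b` are adjacent when `a + b ≥ 2l`, or `a ≥ s` and `a + b ≥ 2l - 1`, with the exception
of the pairs with `a + b = 2l + c + s`.
-/

open Classical Finset

namespace Pool.Agent.NH44.HY

/-- Adjacency on natural numbers. -/
def AA (l s c a b : ℕ) : Prop :=
  a ≠ b ∧ ((l ≤ a ∧ l ≤ b) ∨
    (a < l ∧ l ≤ b ∧ (2 * l ≤ a + b ∨ (s ≤ a ∧ 2 * l ≤ a + b + 1)) ∧ a + b ≠ 2 * l + c + s) ∨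
    (b < l ∧ l ≤ a ∧ (2 * l ≤ a + b ∨ (s ≤ b ∧ 2 * l ≤ a + b + 1)) ∧ a + b ≠ 2 * l + c + s))

/-- The graph. -/
def GG (l s c : ℕ) : SimpleGraph (Fin (2 * l + c + 1)) where
  Adj a b := AA l s c a.1 b.1
  symm := ⟨fun a b h => by unfold AA at *; omega⟩
  loopless := ⟨fun a h => h.1 rfl⟩

theorem adj_mk {l s c a b : ℕ} (ha : a < 2 * l + c + 1) (hb : b < 2 * l + c + 1) :
    (GG l s c).Adj ⟨a, ha⟩ ⟨b, hb⟩ ↔ AA l s c a b := Iff.rfl

/-- The `m` largest vertices, without four numbers. -/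
def RR (l c m e₁ e₂ e₃ e₄ : ℕ) : Finset (Fin (2 * l + c + 1)) :=
  univ.filter fun w => 2 * l + c + 1 ≤ w.1 + m ∧ w.1 ≠ e₁ ∧ w.1 ≠ e₂ ∧ w.1 ≠ e₃ ∧ w.1 ≠ e₄

theorem mem_RR {l c m e₁ e₂ e₃ e₄ w : ℕ} (hw : w < 2 * l + c + 1) :
    (⟨w, hw⟩ : Fin (2 * l + c + 1)) ∈ RR l c m e₁ e₂ e₃ e₄ ↔
      2 * l + c + 1 ≤ w + m ∧ w ≠ e₁ ∧ w ≠ e₂ ∧ w ≠ e₃ ∧ w ≠ e₄ := by
  simp [RR]

theorem card_RR (l c m e₁ e₂ e₃ e₄ : ℕ) (hm : m ≤ 2 * l + c + 1) :
    m ≤ (RR l c m e₁ e₂ e₃ e₄).card + 4 := by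
  have h1 : (Finset.Ico (2 * l + c + 1 - m) (2 * l + c + 1) \ {e₁, e₂, e₃, e₄}) ⊆
      (RR l c m e₁ e₂ e₃ e₄).map Fin.valEmbedding := by
    intro w hw
    simp only [Finset.mem_sdiff, Finset.mem_Ico, Finset.mem_insert, Finset.mem_singleton,
      not_or] at hw
    simp only [Finset.mem_map, Fin.valEmbedding_apply]
    refine ⟨⟨w, hw.1.2⟩, ?_, rfl⟩
    rw [mem_RR]
    omega
  have h2 := Finset.card_le_card h1
  rw [Finset.card_map] at h2
  have h3 := Finset.le_card_sdiff ({e₁, e₂, e₃, e₄} : Finset ℕ)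
    (Finset.Ico (2 * l + c + 1 - m) (2 * l + c + 1))
  rw [Nat.card_Ico] at h3
  have h4 : ({e₁, e₂, e₃, e₄} : Finset ℕ).card ≤ 4 := Finset.card_le_four
  omega

theorem card_le_of_range {N b m e : ℕ} (S : Finset (Fin N))
    (h : ∀ w ∈ S, (b ≤ w.1 ∧ w.1 < b + m) ∨ w.1 = e) : S.card ≤ m + 1 := by
  have h1 : S.map Fin.valEmbedding ⊆ insert e (Finset.Ico b (b + m)) := by
    intro w hw
    simp only [Finset.mem_map, Fin.valEmbedding_apply] at hw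
    obtain ⟨x, hx, rfl⟩ := hw
    rw [Finset.mem_insert, Finset.mem_Ico]
    rcases h x hx with h | h
    · exact Or.inr h
    · exact Or.inl h
  have h2 := Finset.card_le_card h1
  rw [Finset.card_map] at h2
  refine h2.trans ((Finset.card_insert_le _ _).trans ?_)
  simp

/-- The top vertices form a clique. -/
theorem clique_RR {l s c m e₁ e₂ e₃ e₄ : ℕ} (hm : m ≤ l + c + 1) :
    ∀ r ∈ RR l c m e₁ e₂ e₃ e₄, ∀ r' ∈ RR l c m e₁ e₂ e₃ e₄, r ≠ r' → (GG l s c).Adj r r' := by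
  rintro ⟨r, hr⟩ h1 ⟨r', hr'⟩ h2 hne
  rw [mem_RR] at h1 h2
  rw [adj_mk]
  have : r ≠ r' := fun h => hne (by subst h; rfl)
  unfold AA
  omega

variable {W : Type} [Fintype W]

section
variable (F : SimpleGraph W) (l s c n X Y : ℕ)

/-- First steps: nested neighbourhoods. -/
theorem T1 (hExt : St_Ext) (hNest : St_Nest) (hCov : St_Cov) {x y : W} (hxy : F.Adj x y)
    (hW : Fintype.card W ≤ n) (hc : c = n + 4) (hs : c + n + 10 ≤ s)
    (hl : 10 * s + 10 * c + 50 ≤ l) (a : ℕ) (ha : a + 2 ≤ s) :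
    cov F (GG l s c) ⟨a, by omega⟩ + 1 ≤ cov F (GG l s c) ⟨a + 1, by omega⟩ := by
  have hcard := card_RR l c (c + 1) (2 * l + c + 1) (2 * l + c + 1) (2 * l + c + 1)
    (2 * l + c + 1) (by omega)
  have key := step_nest hExt hNest hCov F (GG l s c) ⟨a, by omega⟩ ⟨a + 1, by omega⟩
    ⟨2 * l - 1 - a, by omega⟩
    (RR l c (c + 1) (2 * l + c + 1) (2 * l + c + 1) (2 * l + c + 1) (2 * l + c + 1)) 1 hxy
    (by simp) ?_ ?_ ?_ ?_ ?_ ?_ ?_ (clique_RR (by omega)) (Or.inl ?_) (Or.inl ?_) (by omega)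
  · rwa [one_pow] at key
  · rintro ⟨w, hw⟩
    simp only [adj_mk, ne_eq, Fin.mk.injEq]
    unfold AA
    omega
  · rw [adj_mk]; unfold AA; omega
  · rw [adj_mk]; unfold AA; omega
  · simp only [ne_eq, Fin.mk.injEq]; omega
  · rw [mem_RR]; omega
  · rw [mem_RR]; omega
  · rw [mem_RR]; omega
  · rintro ⟨w, hw⟩
    rw [mem_RR, adj_mk]
    unfold AA
    omega
  · rintro ⟨w, hw⟩
    rw [mem_RR, adj_mk]
    unfold AA
    omega

/-- First steps for `F` of maximal degree one. -/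
theorem T1m (hExt : St_Ext) (hNest : St_Nest) (hCov : St_Cov) {x y : W} (hxy : F.Adj x y)
    (mt : ∀ x y z, F.Adj x y → F.Adj x z → y = z)
    (hW : Fintype.card W ≤ n) (hs : c + n + 10 ≤ s)
    (hl : 10 * s + 10 * c + 50 ≤ l) (hX : X + n + 4 ≤ s) (a : ℕ) (ha : a + 2 ≤ s) :
    cov F (GG l s c) ⟨a, by omega⟩ + X ^ (Fintype.card W - 2) ≤
      cov F (GG l s c) ⟨a + 1, by omega⟩ := by
  have hcard := card_RR l c s (2 * l - 1 - a) (2 * l + c + 1) (2 * l + c + 1)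
    (2 * l + c + 1) (by omega)
  refine step_nest hExt hNest hCov F (GG l s c) ⟨a, by omega⟩ ⟨a + 1, by omega⟩
    ⟨2 * l - 1 - a, by omega⟩
    (RR l c s (2 * l - 1 - a) (2 * l + c + 1) (2 * l + c + 1) (2 * l + c + 1)) X hxy
    (by simp) ?_ ?_ ?_ ?_ ?_ ?_ ?_ (clique_RR (by omega)) (Or.inr ?_) (Or.inr ?_) (by omega)
  · rintro ⟨w, hw⟩
    simp only [adj_mk, ne_eq, Fin.mk.injEq]
    unfold AA
    omega
  · rw [adj_mk]; unfold AA; omega
  · rw [adj_mk]; unfold AA; omega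
  · simp only [ne_eq, Fin.mk.injEq]; omega
  · rw [mem_RR]; omega
  · rw [mem_RR]; omega
  · rw [mem_RR]; omega
  · intro z hz; exact mt _ _ _ hz hxy
  · intro z hz; exact mt _ _ _ hz hxy.symm

/-- The step at `s - 1`. -/
theorem T2 (hExt : St_Ext) (hRatio : St_Ratio) (hRepl : St_Repl) (hCov : St_Cov)
    {x y : W} (hxy : F.Adj x y)
    (hW : Fintype.card W ≤ n) (hs : c + n + 10 ≤ s)
    (hl : 10 * s + 10 * c + 50 ≤ l) (hl2 : 2 * (n * (c + s + 5)) + 2 * c + 3 * s + n + 30 ≤ l)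
    (a : ℕ) (ha : a + 1 = s) :
    cov F (GG l s c) ⟨a, by omega⟩ < cov F (GG l s c) ⟨a + 1, by omega⟩ := by
  have hcard := card_RR l c (l + c + 1) (2 * l + c + 1) (2 * l + c + 1) (2 * l + c + 1)
    (2 * l + c + 1) (by omega)
  have hcard' := card_RR l c s (2 * l + c) (2 * l + c + 1) (2 * l + c + 1)
    (2 * l + c + 1) (by omega)
  have hmul : Fintype.card W * (c + s + 5) ≤ n * (c + s + 5) := Nat.mul_le_mul_right _ hW
  refine step_ratio hExt hRatio hRepl hCov F (GG l s c) ⟨a, by omega⟩ ⟨a + 1, by omega⟩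
    ⟨2 * l + c, by omega⟩ ⟨2 * l - s, by omega⟩ ⟨2 * l - s - 1, by omega⟩
    (RR l c (l + c + 1) (2 * l + c + 1) (2 * l + c + 1) (2 * l + c + 1) (2 * l + c + 1))
    (RR l c s (2 * l + c) (2 * l + c + 1) (2 * l + c + 1) (2 * l + c + 1))
    (c + s + 5) hxy (by simp) ?_ ?_ ?_ ?_ ?_ ?_ ?_ ?_ ?_ ?_ ?_ ?_ ?_ ?_ ?_ ?_ ?_ ?_ ?_ ?_ ?_ ?_
    (by omega) ?_ ?_ ?_ (clique_RR (by omega)) ?_ ?_ (by omega)
  all_goals try (simp only [ne_eq, Fin.mk.injEq]; omega)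
  all_goals try (rw [mem_RR]; omega)
  all_goals try (rw [adj_mk]; unfold AA; omega)
  · rintro ⟨w, hw⟩
    simp only [adj_mk, ne_eq, Fin.mk.injEq]
    unfold AA
    omega
  · rintro ⟨w, hw⟩
    simp only [adj_mk, ne_eq, Fin.mk.injEq]
    unfold AA
    omega
  · rintro ⟨w, hw⟩
    simp only [adj_mk, ne_eq, Fin.mk.injEq]
    unfold AA
    omega
  · rintro ⟨t, ht⟩ h1 ⟨r, hr⟩ h2 ⟨w, hw⟩
    simp only [DD, Finset.mem_filter, Finset.mem_univ, true_and, adj_mk, ne_eq, Fin.mk.injEq]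
      at h1
    rw [mem_RR] at h2
    simp only [adj_mk, ne_eq, Fin.mk.injEq]
    unfold AA at *
    omega
  · rintro ⟨t, ht⟩ h1 ⟨r, hr⟩ h2 ⟨w, hw⟩
    simp only [DD, Finset.mem_filter, Finset.mem_univ, true_and, adj_mk, ne_eq, Fin.mk.injEq]
      at h1
    rw [mem_RR] at h2
    simp only [adj_mk, ne_eq, Fin.mk.injEq]
    unfold AA at *
    omega
  · refine (card_le_of_range (b := 0) (m := s) (e := c + 2 * s) _ ?_).trans (by omega)
    rintro ⟨t, ht⟩ h1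
    simp only [DD, Finset.mem_filter, Finset.mem_univ, true_and, adj_mk, ne_eq, Fin.mk.injEq]
      at h1
    unfold AA at *
    simp only
    omega
  · refine (card_le_of_range (b := 0) (m := s) (e := c + 2 * s + 1) _ ?_).trans (by omega)
    rintro ⟨t, ht⟩ h1
    simp only [DD, Finset.mem_filter, Finset.mem_univ, true_and, adj_mk, ne_eq, Fin.mk.injEq]
      at h1
    unfold AA at *
    simp only
    omega
  · rintro ⟨w, hw⟩
    rw [mem_RR, adj_mk]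
    unfold AA
    omega
  · rintro ⟨w, hw⟩
    rw [mem_RR, adj_mk]
    unfold AA
    omega

/-- The middle steps below `l`. -/
theorem T3 (hExt : St_Ext) (hSwap : St_Swap) (hCov : St_Cov) (hUp : St_Up)
    {x y : W} (hxy : F.Adj x y)
    (hW : Fintype.card W ≤ n) (hs : c + n + 10 ≤ s)
    (hl : 10 * s + 10 * c + 50 ≤ l) (hX : X + n + 4 ≤ s)
    (hY : 4 ≤ Fintype.card W → (Fintype.card W) ^ 4 * (2 * l + c + 1) ^ (Fintype.card W - 3) ≤ Y)
    (a : ℕ) (ha : s ≤ a) (ha' : a + 2 ≤ l) :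
    cov F (GG l s c) ⟨a, by omega⟩ + X ^ (Fintype.card W - 2) ≤
      cov F (GG l s c) ⟨a + 1, by omega⟩ + Y := by
  have hcard := card_RR l c s (2 * l - 2 - a) (2 * l + c + s - a - 1) (2 * l + c + 1)
    (2 * l + c + 1) (by omega)
  refine step_edge hExt hSwap hCov hUp F (GG l s c) ⟨a, by omega⟩ ⟨a + 1, by omega⟩
    ⟨2 * l + c + s - a - 1, by omega⟩ ⟨2 * l + c + s - a, by omega⟩ ⟨2 * l - 2 - a, by omega⟩
    (RR l c s (2 * l - 2 - a) (2 * l + c + s - a - 1) (2 * l + c + 1) (2 * l + c + 1)) X Y hxy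
    (by simp) ?_ ?_ ?_ ?_ ?_ ?_ ?_ ?_ ?_ ?_ ?_ ?_ ?_ ?_ ?_ ?_ (clique_RR (by omega)) (Or.inl ?_)
    (Or.inl ?_) (by omega) (by simpa using hY)
  all_goals try (simp only [ne_eq, Fin.mk.injEq]; omega)
  all_goals try (rw [mem_RR]; omega)
  all_goals try (rw [adj_mk]; unfold AA; omega)
  · rintro ⟨w, hw⟩
    simp only [adj_mk, ne_eq, Fin.mk.injEq]
    unfold AA
    omega
  · rintro ⟨w, hw⟩
    simp only [adj_mk, ne_eq, Fin.mk.injEq]
    unfold AA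
    omega
  · rintro ⟨w, hw⟩
    rw [mem_RR, adj_mk]
    unfold AA
    omega
  · rintro ⟨w, hw⟩
    rw [mem_RR, adj_mk]
    unfold AA
    omega

/-- The step from `l - 1` to `l`. -/
theorem T4 (hExt : St_Ext) (hNest : St_Nest) (hCov : St_Cov) {x y : W} (hxy : F.Adj x y)
    (hW : Fintype.card W ≤ n) (hs : c + n + 10 ≤ s)
    (hl : 10 * s + 10 * c + 50 ≤ l) (hX : X + n + 4 ≤ s) (a : ℕ) (ha : a + 1 = l) :
    cov F (GG l s c) ⟨a, by omega⟩ + X ^ (Fintype.card W - 2) ≤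
      cov F (GG l s c) ⟨a + 1, by omega⟩ := by
  have hcard := card_RR l c s (2 * l + c + 1) (2 * l + c + 1) (2 * l + c + 1)
    (2 * l + c + 1) (by omega)
  refine step_nest hExt hNest hCov F (GG l s c) ⟨a, by omega⟩ ⟨a + 1, by omega⟩
    ⟨l + c + s + 1, by omega⟩
    (RR l c s (2 * l + c + 1) (2 * l + c + 1) (2 * l + c + 1) (2 * l + c + 1)) X hxy
    (by simp) ?_ ?_ ?_ ?_ ?_ ?_ ?_ (clique_RR (by omega)) (Or.inl ?_) (Or.inl ?_) (by omega)
  · rintro ⟨w, hw⟩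
    simp only [adj_mk, ne_eq, Fin.mk.injEq]
    unfold AA
    omega
  · rw [adj_mk]; unfold AA; omega
  · rw [adj_mk]; unfold AA; omega
  · simp only [ne_eq, Fin.mk.injEq]; omega
  · rw [mem_RR]; omega
  · rw [mem_RR]; omega
  · rw [mem_RR]; omega
  · rintro ⟨w, hw⟩
    rw [mem_RR, adj_mk]
    unfold AA
    omega
  · rintro ⟨w, hw⟩
    rw [mem_RR, adj_mk]
    unfold AA
    omega

/-- The nested steps above `l`. -/
theorem T5 (hExt : St_Ext) (hNest : St_Nest) (hCov : St_Cov) {x y : W} (hxy : F.Adj x y)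
    (hW : Fintype.card W ≤ n) (hs : c + n + 10 ≤ s)
    (hl : 10 * s + 10 * c + 50 ≤ l) (hX : X + n + 4 ≤ s) (a : ℕ) (ha : l ≤ a)
    (ha' : a + 1 ≤ l + c + s) :
    cov F (GG l s c) ⟨a, by omega⟩ + X ^ (Fintype.card W - 2) ≤
      cov F (GG l s c) ⟨a + 1, by omega⟩ := by
  have hcard := card_RR l c s (2 * l + c + s - (2 * l - 2 - a)) (2 * l + c + 1) (2 * l + c + 1)
    (2 * l + c + 1) (by omega)
  refine step_nest hExt hNest hCov F (GG l s c) ⟨a, by omega⟩ ⟨a + 1, by omega⟩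
    ⟨2 * l - 2 - a, by omega⟩
    (RR l c s (2 * l + c + s - (2 * l - 2 - a)) (2 * l + c + 1) (2 * l + c + 1)
      (2 * l + c + 1)) X hxy
    (by simp) ?_ ?_ ?_ ?_ ?_ ?_ ?_ (clique_RR (by omega)) (Or.inl ?_) (Or.inl ?_) (by omega)
  · rintro ⟨w, hw⟩
    simp only [adj_mk, ne_eq, Fin.mk.injEq]
    unfold AA
    omega
  · rw [adj_mk]; unfold AA; omega
  · rw [adj_mk]; unfold AA; omega
  · simp only [ne_eq, Fin.mk.injEq]; omega
  · rw [mem_RR]; omega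
  · rw [mem_RR]; omega
  · rw [mem_RR]; omega
  · rintro ⟨w, hw⟩
    rw [mem_RR, adj_mk]
    unfold AA
    omega
  · rintro ⟨w, hw⟩
    rw [mem_RR, adj_mk]
    unfold AA
    omega

end

end Pool.Agent.NH44.HY
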