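import Pool.Agent.NH44.HY.Graph

/-!
# The steps near the top
-/

open Classical Finset

namespace Pool.Agent.NH44.HY

variable {W : Type} [Fintype W]

section
variable (F : SimpleGraph W) (l s c n X Y : ℕ)

/-- The exceptional step, for `F` with a path of two edges. -/
theorem T6c (hExt : St_Ext) (hSwap : St_Swap) (hCov : St_Cov) (hUp : St_Up)
    {x y z : W} (hxy : F.Adj x y) (hyz : F.Adj y z) (hxz : x ≠ z)
    (hW : Fintype.card W ≤ n) (hs : c + n + 10 ≤ s)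
    (hl : 10 * s + 10 * c + 50 ≤ l) (hX : X + n + 4 ≤ s) (hX1 : 1 ≤ X)
    (hXX : 4 ≤ Fintype.card W →
      (Fintype.card W) ^ 4 * (2 * l + c + 1) ^ (Fintype.card W - 4) < X ^ (Fintype.card W - 3))
    (a : ℕ) (ha : a = l + c + s) :
    cov F (GG l s c) ⟨a + 1, by omega⟩ < cov F (GG l s c) ⟨a, by omega⟩ := by
  have hcard := card_RR l c s (2 * l + c + 1) (2 * l + c + 1) (2 * l + c + 1)
    (2 * l + c + 1) (by omega)
  refine step_cherry hExt hSwap hCov hUp F (GG l s c) ⟨a + 1, by omega⟩ ⟨a, by omega⟩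
    ⟨l - c - s - 2, by omega⟩ ⟨l - 1, by omega⟩
    (RR l c s (2 * l + c + 1) (2 * l + c + 1) (2 * l + c + 1) (2 * l + c + 1)) X hxy hyz hxz
    (by simp) ?_ ?_ ?_ ?_ ?_ ?_ ?_ ?_ ?_ ⟨⟨l, by omega⟩, ?_⟩ ?_ ?_ ?_ ?_ (clique_RR (by omega))
    ?_ ?_ (by omega) (by simpa using hXX) hX1
  all_goals try (simp only [ne_eq, Fin.mk.injEq]; omega)
  all_goals try (rw [mem_RR]; omega)
  all_goals try (rw [adj_mk]; unfold AA; omega)
  · rintro ⟨w, hw⟩
    simp only [adj_mk, ne_eq, Fin.mk.injEq]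
    unfold AA
    omega
  · rintro ⟨w, hw⟩
    simp only [adj_mk, ne_eq, Fin.mk.injEq]
    unfold AA
    omega
  · simp only [DD, Finset.mem_filter, Finset.mem_univ, true_and, adj_mk, ne_eq, Fin.mk.injEq]
    unfold AA
    omega
  · rintro ⟨t, ht⟩ h1
    simp only [DD, Finset.mem_filter, Finset.mem_univ, true_and, adj_mk, ne_eq, Fin.mk.injEq]
      at h1
    refine ⟨?_, ?_, ?_⟩
    · rw [adj_mk]; unfold AA at *; omega
    · rw [mem_RR]; unfold AA at *; omega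
    · rintro ⟨w, hw⟩
      rw [mem_RR, adj_mk]
      unfold AA at *
      omega
  · rintro ⟨w, hw⟩
    rw [mem_RR, adj_mk]
    unfold AA
    omega
  · rintro ⟨w, hw⟩
    rw [mem_RR, adj_mk]
    unfold AA
    omega

/-- The exceptional step, for `F` of maximal degree one. -/
theorem T6m (hExt : St_Ext) (hSwap : St_Swap) (hBack : St_Back) (hCov : St_Cov) (hUp : St_Up)
    (mt : ∀ x y z, F.Adj x y → F.Adj x z → y = z)
    {x y x' y' : W} (hxy : F.Adj x y) (hxy' : F.Adj x' y') (a1 : x ≠ x') (a2 : x ≠ y')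
    (a3 : y ≠ x') (a4 : y ≠ y')
    (hW : Fintype.card W ≤ n) (hs : c + n + 10 ≤ s)
    (hl : 10 * s + 10 * c + 50 ≤ l)
    (a : ℕ) (ha : a = l + c + s) :
    cov F (GG l s c) ⟨a, by omega⟩ < cov F (GG l s c) ⟨a + 1, by omega⟩ := by
  have hcard := card_RR l c s (2 * l + c + 1) (2 * l + c + 1) (2 * l + c + 1)
    (2 * l + c + 1) (by omega)
  refine (step_back hExt hSwap hBack hCov hUp F (GG l s c) ⟨a + 1, by omega⟩ ⟨a, by omega⟩
    ⟨l - c - s - 2, by omega⟩ ⟨l - 1, by omega⟩ ⟨l, by omega⟩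
    (RR l c s (2 * l + c + 1) (2 * l + c + 1) (2 * l + c + 1) (2 * l + c + 1))
    ((Fintype.card W) ^ 4 * (2 * l + c + 1) ^ (Fintype.card W - 3)) mt hxy hxy' a1 a2 a3 a4
    (by simp) ?_ ?_ ?_ ?_ ?_ ?_ ?_ ?_ ?_ ?_ ?_ ?_ ?_ ?_ ?_ ?_ ?_ ?_ ?_ ?_ ?_ ?_
    (clique_RR (by omega)) (by omega) ?_).1
  all_goals try (simp only [ne_eq, Fin.mk.injEq]; omega)
  all_goals try (rw [mem_RR]; omega)
  all_goals try (rw [adj_mk]; unfold AA; omega)
  · rintro ⟨w, hw⟩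
    simp only [adj_mk, ne_eq, Fin.mk.injEq]
    unfold AA
    omega
  · rintro ⟨w, hw⟩
    simp only [adj_mk, ne_eq, Fin.mk.injEq]
    unfold AA
    omega
  · rintro ⟨w, hw⟩
    simp only [adj_mk, ne_eq, Fin.mk.injEq]
    unfold AA
    omega
  · intro _; simp

/-- The steps near the top, for `F` with a path of two edges. -/
theorem T7c (hExt : St_Ext) (hSwap : St_Swap) (hCov : St_Cov) (hUp : St_Up)
    {x y z : W} (hxy : F.Adj x y) (hyz : F.Adj y z) (hxz : x ≠ z)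
    (hW : Fintype.card W ≤ n) (hs : c + n + 10 ≤ s)
    (hl : 10 * s + 10 * c + 50 ≤ l) (hX : X + n + 4 ≤ s) (hX1 : 1 ≤ X)
    (hXX : 4 ≤ Fintype.card W →
      (Fintype.card W) ^ 4 * (2 * l + c + 1) ^ (Fintype.card W - 4) < X ^ (Fintype.card W - 3))
    (a : ℕ) (ha : l + c + s + 1 ≤ a) (ha' : a + 1 ≤ 2 * l + c) :
    cov F (GG l s c) ⟨a, by omega⟩ < cov F (GG l s c) ⟨a + 1, by omega⟩ := by
  have hcard := card_RR l c s a (a + 1) (2 * l + c + 1)
    (2 * l + c + 1) (by omega)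
  refine step_cherry hExt hSwap hCov hUp F (GG l s c) ⟨a, by omega⟩ ⟨a + 1, by omega⟩
    ⟨2 * l + c + s - a - 1, by omega⟩ ⟨2 * l + c + s - a, by omega⟩
    (RR l c s a (a + 1) (2 * l + c + 1) (2 * l + c + 1)) X hxy hyz hxz
    (by simp) ?_ ?_ ?_ ?_ ?_ ?_ ?_ ?_ ?_ ⟨⟨a - c - s - 1, by omega⟩, ?_⟩ ?_ ?_ ?_ ?_
    (clique_RR (by omega))
    ?_ ?_ (by omega) (by simpa using hXX) hX1
  all_goals try (simp only [ne_eq, Fin.mk.injEq]; omega)
  all_goals try (rw [mem_RR]; omega)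
  all_goals try (rw [adj_mk]; unfold AA; omega)
  · rintro ⟨w, hw⟩
    simp only [adj_mk, ne_eq, Fin.mk.injEq]
    unfold AA
    omega
  · rintro ⟨w, hw⟩
    simp only [adj_mk, ne_eq, Fin.mk.injEq]
    unfold AA
    omega
  · simp only [DD, Finset.mem_filter, Finset.mem_univ, true_and, adj_mk, ne_eq, Fin.mk.injEq]
    unfold AA
    omega
  · rintro ⟨t, ht⟩ h1
    simp only [DD, Finset.mem_filter, Finset.mem_univ, true_and, adj_mk, ne_eq, Fin.mk.injEq]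
      at h1
    refine ⟨?_, ?_, ?_⟩
    · rw [adj_mk]; unfold AA at *; omega
    · rw [mem_RR]; unfold AA at *; omega
    · rintro ⟨w, hw⟩
      rw [mem_RR, adj_mk]
      unfold AA at *
      omega
  · rintro ⟨w, hw⟩
    rw [mem_RR, adj_mk]
    unfold AA
    omega
  · rintro ⟨w, hw⟩
    rw [mem_RR, adj_mk]
    unfold AA
    omega

/-- The steps near the top with a new neighbour, for `F` of maximal degree one. -/
theorem T7b (hExt : St_Ext) (hSwap : St_Swap) (hCov : St_Cov) (hUp : St_Up)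
    (mt : ∀ x y z, F.Adj x y → F.Adj x z → y = z)
    {x y : W} (hxy : F.Adj x y)
    (hW : Fintype.card W ≤ n) (hs : c + n + 10 ≤ s)
    (hl : 10 * s + 10 * c + 50 ≤ l) (hX : X + n + 4 ≤ s)
    (hY : 4 ≤ Fintype.card W → (Fintype.card W) ^ 4 * (2 * l + c + 1) ^ (Fintype.card W - 3) ≤ Y)
    (a : ℕ) (ha : l + c + s + 1 ≤ a) (ha' : a + 1 ≤ 2 * l) (ha2 : a ≠ 2 * l - 1 - s) :
    cov F (GG l s c) ⟨a, by omega⟩ + X ^ (Fintype.card W - 2) ≤
      cov F (GG l s c) ⟨a + 1, by omega⟩ + Y := by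
  have hcard := card_RR l c s a (a + 1) (2 * l + c + 1)
    (2 * l + c + 1) (by omega)
  by_cases hcase : a ≤ 2 * l - 2 - s
  · refine step_edge hExt hSwap hCov hUp F (GG l s c) ⟨a, by omega⟩ ⟨a + 1, by omega⟩
      ⟨2 * l + c + s - a - 1, by omega⟩ ⟨2 * l + c + s - a, by omega⟩ ⟨2 * l - 2 - a, by omega⟩
      (RR l c s a (a + 1) (2 * l + c + 1) (2 * l + c + 1)) X Y hxy
      (by simp) ?_ ?_ ?_ ?_ ?_ ?_ ?_ ?_ ?_ ?_ ?_ ?_ ?_ ?_ ?_ ?_ (clique_RR (by omega)) (Or.inr ?_)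
      (Or.inr ?_) (by omega) (by simpa using hY)
    all_goals try (simp only [ne_eq, Fin.mk.injEq]; omega)
    all_goals try (rw [mem_RR]; omega)
    all_goals try (rw [adj_mk]; unfold AA; omega)
    · rintro ⟨w, hw⟩
      simp only [adj_mk, ne_eq, Fin.mk.injEq]
      unfold AA
      omega
    · rintro ⟨w, hw⟩
      simp only [adj_mk, ne_eq, Fin.mk.injEq]
      unfold AA
      omega
    · intro z hz; exact mt _ _ _ hz hxy
    · intro z hz; exact mt _ _ _ hz hxy.symm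
  · refine step_edge hExt hSwap hCov hUp F (GG l s c) ⟨a, by omega⟩ ⟨a + 1, by omega⟩
      ⟨2 * l + c + s - a - 1, by omega⟩ ⟨2 * l + c + s - a, by omega⟩ ⟨2 * l - 1 - a, by omega⟩
      (RR l c s a (a + 1) (2 * l + c + 1) (2 * l + c + 1)) X Y hxy
      (by simp) ?_ ?_ ?_ ?_ ?_ ?_ ?_ ?_ ?_ ?_ ?_ ?_ ?_ ?_ ?_ ?_ (clique_RR (by omega)) (Or.inr ?_)
      (Or.inr ?_) (by omega) (by simpa using hY)
    all_goals try (simp only [ne_eq, Fin.mk.injEq]; omega)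
    all_goals try (rw [mem_RR]; omega)
    all_goals try (rw [adj_mk]; unfold AA; omega)
    · rintro ⟨w, hw⟩
      simp only [adj_mk, ne_eq, Fin.mk.injEq]
      unfold AA
      omega
    · rintro ⟨w, hw⟩
      simp only [adj_mk, ne_eq, Fin.mk.injEq]
      unfold AA
      omega
    · intro z hz; exact mt _ _ _ hz hxy
    · intro z hz; exact mt _ _ _ hz hxy.symm

/-- The steps near the top between vertices of the same degree, for `F` of maximal degree one. -/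
theorem T7s (hExt : St_Ext) (hSwap : St_Swap) (hBack : St_Back) (hCov : St_Cov) (hUp : St_Up)
    (mt : ∀ x y z, F.Adj x y → F.Adj x z → y = z)
    {x y x' y' : W} (hxy : F.Adj x y) (hxy' : F.Adj x' y') (a1 : x ≠ x') (a2 : x ≠ y')
    (a3 : y ≠ x') (a4 : y ≠ y')
    (hW : Fintype.card W ≤ n) (hs : c + n + 10 ≤ s)
    (hl : 10 * s + 10 * c + 50 ≤ l)
    (hY : 4 ≤ Fintype.card W → (Fintype.card W) ^ 4 * (2 * l + c + 1) ^ (Fintype.card W - 3) ≤ Y)
    (a : ℕ) (ha : l + c + s + 1 ≤ a) (ha' : a + 1 ≤ 2 * l + c)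
    (ha2 : a = 2 * l - 1 - s ∨ 2 * l ≤ a) :
    cov F (GG l s c) ⟨a + 1, by omega⟩ < cov F (GG l s c) ⟨a, by omega⟩ ∧
      cov F (GG l s c) ⟨a, by omega⟩ ≤ cov F (GG l s c) ⟨a + 1, by omega⟩ + Y := by
  have hcard := card_RR l c s a (a + 1) (2 * l + c + 1)
    (2 * l + c + 1) (by omega)
  refine step_back hExt hSwap hBack hCov hUp F (GG l s c) ⟨a, by omega⟩ ⟨a + 1, by omega⟩
    ⟨2 * l + c + s - a - 1, by omega⟩ ⟨2 * l + c + s - a, by omega⟩ ⟨a - c - s - 1, by omega⟩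
    (RR l c s a (a + 1) (2 * l + c + 1) (2 * l + c + 1)) Y mt hxy hxy' a1 a2 a3 a4
    (by simp) ?_ ?_ ?_ ?_ ?_ ?_ ?_ ?_ ?_ ?_ ?_ ?_ ?_ ?_ ?_ ?_ ?_ ?_ ?_ ?_ ?_ ?_
    (clique_RR (by omega)) (by omega) (by simpa using hY)
  all_goals try (simp only [ne_eq, Fin.mk.injEq]; omega)
  all_goals try (rw [mem_RR]; omega)
  all_goals try (rw [adj_mk]; unfold AA; omega)
  · rintro ⟨w, hw⟩
    simp only [adj_mk, ne_eq, Fin.mk.injEq]
    unfold AA
    omega
  · rintro ⟨w, hw⟩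
    simp only [adj_mk, ne_eq, Fin.mk.injEq]
    unfold AA
    omega
  · rintro ⟨w, hw⟩
    simp only [adj_mk, ne_eq, Fin.mk.injEq]
    unfold AA
    omega

/-- Two steps across the exceptional one. -/
theorem T8 (hExt : St_Ext) (hRatio : St_Ratio) (hRepl : St_Repl) (hCov : St_Cov)
    {x y : W} (hxy : F.Adj x y)
    (hW : Fintype.card W ≤ n) (hs : c + n + 10 ≤ s)
    (hl : 10 * s + 10 * c + 50 ≤ l) (hl2 : 2 * (n * (c + s + 5)) + 2 * c + 3 * s + n + 30 ≤ l)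
    (a : ℕ) (ha : a = l + c + s - 1 ∨ a = l + c + s) :
    cov F (GG l s c) ⟨a, by omega⟩ < cov F (GG l s c) ⟨a + 2, by omega⟩ := by
  have hcard := card_RR l c (l - 2 * c - 3 * s - 6) (2 * l + c + 1) (2 * l + c + 1)
    (2 * l + c + 1) (2 * l + c + 1) (by omega)
  have hcard' := card_RR l c s (2 * l + c + 1) (2 * l + c + 1) (2 * l + c + 1)
    (2 * l + c + 1) (by omega)
  have hmul : Fintype.card W * (c + s + 5) ≤ n * (c + s + 5) := Nat.mul_le_mul_right _ hW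
  refine step_ratio hExt hRatio hRepl hCov F (GG l s c) ⟨a, by omega⟩ ⟨a + 2, by omega⟩
    ⟨2 * l + c + s - a - 2, by omega⟩ ⟨2 * l - 3 - a, by omega⟩ ⟨2 * l - 2 - a, by omega⟩
    (RR l c (l - 2 * c - 3 * s - 6) (2 * l + c + 1) (2 * l + c + 1) (2 * l + c + 1)
      (2 * l + c + 1))
    (RR l c s (2 * l + c + 1) (2 * l + c + 1) (2 * l + c + 1) (2 * l + c + 1))
    (c + s + 5) hxy (by simp) ?_ ?_ ?_ ?_ ?_ ?_ ?_ ?_ ?_ ?_ ?_ ?_ ?_ ?_ ?_ ?_ ?_ ?_ ?_ ?_ ?_ ?_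
    (by omega) ?_ ?_ ?_ (clique_RR (by omega)) ?_ ?_ (by omega)
  all_goals try (simp only [ne_eq, Fin.mk.injEq]; omega)
  all_goals try (rw [mem_RR]; omega)
  all_goals try (rw [adj_mk]; unfold AA; omega)
  · rintro ⟨w, hw⟩
    simp only [adj_mk, ne_eq, Fin.mk.injEq]
    unfold AA
    omega
  · rintro ⟨w, hw⟩
    simp only [adj_mk, ne_eq, Fin.mk.injEq]
    unfold AA
    omega
  · rintro ⟨w, hw⟩
    simp only [adj_mk, ne_eq, Fin.mk.injEq]
    unfold AA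
    omega
  · rintro ⟨t, ht⟩ h1 ⟨r, hr⟩ h2 ⟨w, hw⟩
    simp only [DD, Finset.mem_filter, Finset.mem_univ, true_and, adj_mk, ne_eq, Fin.mk.injEq]
      at h1
    rw [mem_RR] at h2
    simp only [adj_mk, ne_eq, Fin.mk.injEq]
    have h3 : l ≤ t ∧ t ≤ l + 2 * c + 2 * s + 4 := by
      unfold AA at h1; omega
    clear h1
    unfold AA at *
    omega
  · rintro ⟨t, ht⟩ h1 ⟨r, hr⟩ h2 ⟨w, hw⟩
    simp only [DD, Finset.mem_filter, Finset.mem_univ, true_and, adj_mk, ne_eq, Fin.mk.injEq]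
      at h1
    rw [mem_RR] at h2
    simp only [adj_mk, ne_eq, Fin.mk.injEq]
    have h3 : l ≤ t ∧ t ≤ l + 2 * c + 2 * s + 4 := by
      unfold AA at h1; omega
    clear h1
    unfold AA at *
    omega
  · refine (card_le_of_range (b := l) (m := c + s + 4) (e := c + s + 3 + a) _ ?_).trans
      (by omega)
    rintro ⟨t, ht⟩ h1
    simp only [DD, Finset.mem_filter, Finset.mem_univ, true_and, adj_mk, ne_eq, Fin.mk.injEq]
      at h1
    unfold AA at *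
    simp only
    omega
  · refine (card_le_of_range (b := l) (m := c + s + 4) (e := c + s + 2 + a) _ ?_).trans
      (by omega)
    rintro ⟨t, ht⟩ h1
    simp only [DD, Finset.mem_filter, Finset.mem_univ, true_and, adj_mk, ne_eq, Fin.mk.injEq]
      at h1
    unfold AA at *
    simp only
    omega
  · rintro ⟨w, hw⟩
    rw [mem_RR, adj_mk]
    unfold AA
    omega
  · rintro ⟨w, hw⟩
    rw [mem_RR, adj_mk]
    unfold AA
    omega

end

end Pool.Agent.NH44.HY
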