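import Pool.Agent.NH44.HY.Defs

/-!
# Lower bounds for the numbers of special copies
-/

open Classical Finset

namespace Pool.Agent.NH44.HY

variable {V W : Type} [Fintype V] [Fintype W]

theorem mem_homs {F : SimpleGraph W} {G : SimpleGraph V} {φ : W ↪ V} :
    φ ∈ homs F G ↔ ∀ x y, F.Adj x y → G.Adj (φ x) (φ y) := by
  simp [homs]

theorem mem_P {F : SimpleGraph W} {G : SimpleGraph V} {u v : V} {φ : W ↪ V} :
    φ ∈ P F G u v ↔ (∀ x y, F.Adj x y → G.Adj (φ x) (φ y)) ∧ (∃ x, φ x = u) ∧ ∀ x, φ x ≠ v := by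
  simp [P, homs]

/-- Copies through one prescribed edge. -/
theorem low2 (hExt : St_Ext) (F : SimpleGraph W) (G : SimpleGraph V) (u v p : V) (R : Finset V)
    {x y : W} (hxy : F.Adj x y) (hvp : G.Adj v p) (huv : u ≠ v) (hup : u ≠ p)
    (hv : v ∉ R) (hp : p ∉ R) (hu : u ∉ R)
    (hR : ∀ r ∈ R, ∀ r' ∈ R, r ≠ r' → G.Adj r r')
    (h1 : (∀ r ∈ R, G.Adj v r) ∨ ∀ z, F.Adj x z → z = y)
    (h2 : (∀ r ∈ R, G.Adj p r) ∨ ∀ z, F.Adj y z → z = x) :
    (R.card + 1 - Fintype.card W) ^ (Fintype.card W - 2) ≤
      ((P F G v u).filter fun φ => Uses F φ v p).card := by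
  have hne : x ≠ y := hxy.ne
  have hcard : ({x, y} : Finset W).card = 2 := Finset.card_pair hne
  have key := hExt V W F G {x, y} (fun z => if z = x then v else p) R ?_ ?_ hR ?_ ?_
  · rw [hcard] at key
    refine key.trans (Finset.card_le_card ?_)
    intro φ hφ
    rw [Finset.mem_filter] at hφ
    obtain ⟨hφ, hS, hR'⟩ := hφ
    have hx : φ x = v := by
      have := hS x (by simp)
      simpa using this
    have hy : φ y = p := by
      have := hS y (by simp)
      simpa [hne.symm] using this
    rw [Finset.mem_filter, mem_P]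
    refine ⟨⟨mem_homs.1 hφ, ⟨x, hx⟩, ?_⟩, ⟨x, y, hxy, hx, hy⟩⟩
    intro z hz
    by_cases hzS : z ∈ ({x, y} : Finset W)
    · rw [Finset.mem_insert, Finset.mem_singleton] at hzS
      rcases hzS with rfl | rfl
      · exact huv (hz.symm.trans hx)
      · exact hup (hz.symm.trans hy)
    · exact hu (hz ▸ hR' z hzS)
  · intro a ha b hb hab
    simp only [Finset.mem_insert, Finset.mem_singleton] at ha hb
    have hvp' := hvp.ne
    rcases ha with rfl | rfl <;> rcases hb with rfl | rfl
    · rfl
    · simp only [if_true, if_neg hne.symm] at hab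
      exact absurd hab hvp'
    · simp only [if_true, if_neg hne.symm] at hab
      exact absurd hab.symm hvp'
    · rfl
  · intro a ha
    simp only [Finset.mem_insert, Finset.mem_singleton] at ha
    rcases ha with rfl | rfl
    · simpa using hv
    · simpa [hne.symm] using hp
  · intro a ha b hb hab
    simp only [Finset.mem_insert, Finset.mem_singleton] at ha hb
    rcases ha with rfl | rfl <;> rcases hb with rfl | rfl
    · exact absurd rfl hab.ne
    · simpa [hne.symm] using hvp
    · simpa [hne.symm] using hvp.symm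
    · exact absurd rfl hab.ne
  · intro a ha b hb hab r hr
    simp only [Finset.mem_insert, Finset.mem_singleton] at ha hb
    push Not at hb
    rcases ha with rfl | rfl
    · rcases h1 with h1 | h1
      · simpa using h1 r hr
      · exact absurd (h1 b hab) hb.2
    · rcases h2 with h2 | h2
      · simpa [hne.symm] using h2 r hr
      · exact absurd (h2 b hab) hb.1

/-- Copies through a prescribed path with two edges. -/
theorem low3 (hExt : St_Ext) (F : SimpleGraph W) (G : SimpleGraph V) (u v q' t : V) (R : Finset V)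
    {x y z : W} (hxy : F.Adj x y) (hyz : F.Adj y z) (hxz : x ≠ z)
    (hvq : G.Adj v q') (hqt : G.Adj q' t) (hvt : G.Adj v t)
    (huv : u ≠ v) (huq : u ≠ q') (hut : u ≠ t)
    (hv : v ∉ R) (hq : q' ∉ R) (ht : t ∉ R) (hu : u ∉ R)
    (hR : ∀ r ∈ R, ∀ r' ∈ R, r ≠ r' → G.Adj r r')
    (h1 : ∀ r ∈ R, G.Adj v r) (h2 : ∀ r ∈ R, G.Adj q' r) (h3 : ∀ r ∈ R, G.Adj t r) :
    (R.card + 1 - Fintype.card W) ^ (Fintype.card W - 3) ≤
      ((P F G v u).filter fun φ => Uses F φ v q' ∧ Uses F φ q' t ∧ φ z = t).card := by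
  have n1 : x ≠ y := hxy.ne
  have n2 : y ≠ z := hyz.ne
  have hcard : ({x, y, z} : Finset W).card = 3 := by
    rw [Finset.card_eq_three]; exact ⟨x, y, z, n1, hxz, n2, rfl⟩
  set f : W → V := fun w => if w = x then v else if w = y then q' else t with hf
  have e1 : f x = v := by simp [hf]
  have e2 : f y = q' := by simp [hf, n1.symm]
  have e3 : f z = t := by simp [hf, hxz.symm, n2.symm]
  have key := hExt V W F G {x, y, z} f R
    ?_ ?_ hR ?_ ?_
  · rw [hcard] at key
    refine key.trans (Finset.card_le_card ?_)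
    intro φ hφ
    rw [Finset.mem_filter] at hφ
    obtain ⟨hφ, hS, hR'⟩ := hφ
    have hx : φ x = v := (hS x (by simp)).trans e1
    have hy : φ y = q' := (hS y (by simp)).trans e2
    have hz : φ z = t := (hS z (by simp)).trans e3
    rw [Finset.mem_filter, mem_P]
    refine ⟨⟨mem_homs.1 hφ, ⟨x, hx⟩, ?_⟩, ⟨x, y, hxy, hx, hy⟩, ⟨y, z, hyz, hy, hz⟩, hz⟩
    intro w hw
    by_cases hwS : w ∈ ({x, y, z} : Finset W)
    · simp only [Finset.mem_insert, Finset.mem_singleton] at hwS
      rcases hwS with rfl | rfl | rfl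
      · exact huv (hw.symm.trans hx)
      · exact huq (hw.symm.trans hy)
      · exact hut (hw.symm.trans hz)
    · exact hu (hw ▸ hR' w hwS)
  · intro a ha b hb hab
    simp only [Finset.mem_insert, Finset.mem_singleton] at ha hb
    have m1 := hvq.ne
    have m2 := hqt.ne
    have m3 := hvt.ne
    rcases ha with rfl | rfl | rfl <;> rcases hb with rfl | rfl | rfl
    · rfl
    · rw [e1, e2] at hab; exact absurd hab m1
    · rw [e1, e3] at hab; exact absurd hab m3
    · rw [e1, e2] at hab; exact absurd hab.symm m1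
    · rfl
    · rw [e2, e3] at hab; exact absurd hab m2
    · rw [e1, e3] at hab; exact absurd hab.symm m3
    · rw [e2, e3] at hab; exact absurd hab.symm m2
    · rfl
  · intro a ha
    simp only [Finset.mem_insert, Finset.mem_singleton] at ha
    rcases ha with rfl | rfl | rfl
    · rw [e1]; exact hv
    · rw [e2]; exact hq
    · rw [e3]; exact ht
  · intro a ha b hb hab
    simp only [Finset.mem_insert, Finset.mem_singleton] at ha hb
    rcases ha with rfl | rfl | rfl <;> rcases hb with rfl | rfl | rfl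
    · exact absurd rfl hab.ne
    · rw [e1, e2]; exact hvq
    · rw [e1, e3]; exact hvt
    · rw [e1, e2]; exact hvq.symm
    · exact absurd rfl hab.ne
    · rw [e2, e3]; exact hqt
    · rw [e1, e3]; exact hvt.symm
    · rw [e2, e3]; exact hqt.symm
    · exact absurd rfl hab.ne
  · intro a ha b hb hab r hr
    simp only [Finset.mem_insert, Finset.mem_singleton] at ha
    rcases ha with rfl | rfl | rfl
    · rw [e1]; exact h1 r hr
    · rw [e2]; exact h2 r hr
    · rw [e3]; exact h3 r hr

/-- Copies of a graph of maximal degree at most one through two prescribed edges. -/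
theorem low4 (hExt : St_Ext) (F : SimpleGraph W) (G : SimpleGraph V) (u v q q' t : V)
    (R : Finset V) (hF : ∀ x y z, F.Adj x y → F.Adj x z → y = z)
    {x y x' y' : W} (hxy : F.Adj x y) (hxy' : F.Adj x' y') (a1 : x ≠ x') (a2 : x ≠ y')
    (a3 : y ≠ x') (a4 : y ≠ y')
    (huq : G.Adj u q) (hqt : G.Adj q' t) (b1 : u ≠ q') (b2 : u ≠ t) (b3 : q ≠ q') (b4 : q ≠ t)
    (c1 : v ≠ u) (c2 : v ≠ q) (c3 : v ≠ q') (c4 : v ≠ t)
    (hu : u ∉ R) (hq : q ∉ R) (hq' : q' ∉ R) (ht : t ∉ R) (hv : v ∉ R)
    (hR : ∀ r ∈ R, ∀ r' ∈ R, r ≠ r' → G.Adj r r') :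
    (R.card + 1 - Fintype.card W) ^ (Fintype.card W - 4) ≤
      ((P F G u v).filter fun φ => Uses F φ u q ∧ Uses F φ q' t).card := by
  have n1 : x ≠ y := hxy.ne
  have n2 : x' ≠ y' := hxy'.ne
  have hcard : ({x, y, x', y'} : Finset W).card = 4 := by
    rw [Finset.card_insert_of_notMem, Finset.card_eq_three.2 ⟨y, x', y', a3, a4, n2, rfl⟩]
    simp [n1, a1, a2]
  set f : W → V := fun w => if w = x then u else if w = y then q else if w = x' then q' else t
    with hf
  have e1 : f x = u := by simp [hf]
  have e2 : f y = q := by simp [hf, n1.symm]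
  have e3 : f x' = q' := by simp [hf, a1.symm, a3.symm]
  have e4 : f y' = t := by simp [hf, a2.symm, a4.symm, n2.symm]
  have d1 : u ≠ q := huq.ne
  have d2 : q' ≠ t := hqt.ne
  have key := hExt V W F G {x, y, x', y'} f R ?_ ?_ hR ?_ ?_
  · rw [hcard] at key
    refine key.trans (Finset.card_le_card ?_)
    intro φ hφ
    rw [Finset.mem_filter] at hφ
    obtain ⟨hφ, hS, hR'⟩ := hφ
    have hx : φ x = u := (hS x (by simp)).trans e1
    have hy : φ y = q := (hS y (by simp)).trans e2
    have hx' : φ x' = q' := (hS x' (by simp)).trans e3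
    have hy' : φ y' = t := (hS y' (by simp)).trans e4
    rw [Finset.mem_filter, mem_P]
    refine ⟨⟨mem_homs.1 hφ, ⟨x, hx⟩, ?_⟩, ⟨x, y, hxy, hx, hy⟩, ⟨x', y', hxy', hx', hy'⟩⟩
    intro w hw
    by_cases hwS : w ∈ ({x, y, x', y'} : Finset W)
    · simp only [Finset.mem_insert, Finset.mem_singleton] at hwS
      rcases hwS with rfl | rfl | rfl | rfl
      · exact c1 (hw.symm.trans hx)
      · exact c2 (hw.symm.trans hy)
      · exact c3 (hw.symm.trans hx')
      · exact c4 (hw.symm.trans hy')
    · exact hv (hw ▸ hR' w hwS)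
  · intro a ha b hb hab
    simp only [Finset.mem_insert, Finset.mem_singleton] at ha hb
    rcases ha with rfl | rfl | rfl | rfl <;> rcases hb with rfl | rfl | rfl | rfl <;>
      simp only [e1, e2, e3, e4] at hab <;>
      first
        | rfl
        | exact absurd hab d1
        | exact absurd hab.symm d1
        | exact absurd hab b1
        | exact absurd hab.symm b1
        | exact absurd hab b2
        | exact absurd hab.symm b2
        | exact absurd hab b3
        | exact absurd hab.symm b3
        | exact absurd hab b4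
        | exact absurd hab.symm b4
        | exact absurd hab d2
        | exact absurd hab.symm d2
  · intro a ha
    simp only [Finset.mem_insert, Finset.mem_singleton] at ha
    rcases ha with rfl | rfl | rfl | rfl
    · rw [e1]; exact hu
    · rw [e2]; exact hq
    · rw [e3]; exact hq'
    · rw [e4]; exact ht
  · intro a ha b hb hab
    simp only [Finset.mem_insert, Finset.mem_singleton] at ha hb
    rcases ha with rfl | rfl | rfl | rfl
    · have : b = y := hF _ _ _ hab hxy
      rw [this, e1, e2]; exact huq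
    · have : b = x := hF _ _ _ hab hxy.symm
      rw [this, e1, e2]; exact huq.symm
    · have : b = y' := hF _ _ _ hab hxy'
      rw [this, e3, e4]; exact hqt
    · have : b = x' := hF _ _ _ hab hxy'.symm
      rw [this, e3, e4]; exact hqt.symm
  · intro a ha b hb hab r hr
    exfalso
    apply hb
    simp only [Finset.mem_insert, Finset.mem_singleton] at ha ⊢
    rcases ha with rfl | rfl | rfl | rfl
    · exact Or.inr (Or.inl (hF _ _ _ hab hxy))
    · exact Or.inl (hF _ _ _ hab hxy.symm)
    · exact Or.inr (Or.inr (Or.inr (hF _ _ _ hab hxy')))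
    · exact Or.inr (Or.inr (Or.inl (hF _ _ _ hab hxy'.symm)))

end Pool.Agent.NH44.HY
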