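import Pool.Agent.NH44.HY.Final

/-!
# The explicit hyper-irregular graphs
-/

open Classical Finset

namespace Pool.Agent.NH44.HY

/-- The bound for the parameter `s`. -/
def KK (n : ℕ) : ℕ := (n + 7) * (n ^ 4 * (82 * n) ^ n)

/-- For all patterns with at most `n` vertices and at least two edges the numbers of labelled
copies through different vertices of the explicit graph are different. -/
theorem cov_ne {W : Type} [Fintype W] (F : SimpleGraph W) (n s : ℕ) (hn : 3 ≤ n)
    (hW : Fintype.card W ≤ n) (hs : KK n + 10 * n + 100 ≤ s)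
    (hF : 2 ≤ F.edgeSet.ncard) :
    ∀ a b : Fin (2 * (20 * n * s) + (n + 4) + 1), a ≠ b →
      cov F (GG (20 * n * s) s (n + 4)) a ≠ cov F (GG (20 * n * s) s (n + 4)) b := by
  have hn1 : 1 ≤ n := by omega
  obtain ⟨e, he, e', he', hee⟩ : ∃ e ∈ F.edgeSet, ∃ e' ∈ F.edgeSet, e ≠ e' := by
    have h1 : 1 < F.edgeSet.ncard := hF
    rw [Set.one_lt_ncard_iff] at h1
    · obtain ⟨a, b, ha, hb, hab⟩ := h1
      exact ⟨a, ha, b, hb, hab⟩
  induction e using Sym2.ind with
  | _ x y =>
  induction e' using Sym2.ind with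
  | _ x' y' =>
  rw [SimpleGraph.mem_edgeSet] at he he'
  obtain ⟨X, hX⟩ : ∃ X, s = X + n + 4 := ⟨s - n - 4, by omega⟩
  have hKX : KK n < X := by omega
  have hns : 3 * s ≤ n * s := Nat.mul_le_mul_right _ hn
  have e20 : 20 * n * s = 20 * (n * s) := by ring
  have hN : 2 * (20 * n * s) + (n + 4) + 1 ≤ 82 * n * X := by
    have h1 : 82 * n * X = 82 * (n * X) := by ring
    have h2 : n * s = n * X + n * (n + 4) := by rw [hX]; ring
    have h3 : n * (n + 4) ≤ n * (s - X) := by
      refine Nat.mul_le_mul_left _ (by omega)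
    have h4 : 2 * (n + 4) ≤ s := by omega
    have h5 : s ≤ 2 * X := by omega
    have h6 : n * s ≤ n * (2 * X) := Nat.mul_le_mul_left _ h5
    have h7 : n * (2 * X) = 2 * (n * X) := by ring
    omega
  set N := 2 * (20 * n * s) + (n + 4) + 1 with hNdef
  set A := 82 * n with hA
  have hA1 : 1 ≤ A := by omega
  have hXpos : 1 ≤ X := by omega
  have hpow : ∀ j, j ≤ n → N ^ j ≤ A ^ n * X ^ j := by
    intro j hj
    calc N ^ j ≤ (A * X) ^ j := Nat.pow_le_pow_left hN _
      _ = A ^ j * X ^ j := by rw [mul_pow]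
      _ ≤ A ^ n * X ^ j := Nat.mul_le_mul_right _ (Nat.pow_le_pow_right hA1 hj)
  have hk4 : Fintype.card W ^ 4 ≤ n ^ 4 := Nat.pow_le_pow_left hW _
  refine cov_injective F (20 * n * s) s (n + 4) n X hW rfl (by omega) (by omega) ?_ (by omega)
    hXpos ?_ ?_ he he' hee
  · have h1 : n * (n + 4 + s + 5) ≤ n * (2 * s) := Nat.mul_le_mul_left _ (by omega)
    have h2 : n * (2 * s) = 2 * (n * s) := by ring
    omega
  · intro hk
    have h1 : Fintype.card W ^ 4 * N ^ (Fintype.card W - 4) ≤
        KK n * X ^ (Fintype.card W - 4) := by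
      calc Fintype.card W ^ 4 * N ^ (Fintype.card W - 4)
          ≤ n ^ 4 * (A ^ n * X ^ (Fintype.card W - 4)) :=
            Nat.mul_le_mul hk4 (hpow _ (by omega))
        _ = 1 * (n ^ 4 * A ^ n * X ^ (Fintype.card W - 4)) := by ring
        _ ≤ (n + 7) * (n ^ 4 * A ^ n * X ^ (Fintype.card W - 4)) :=
            Nat.mul_le_mul_right _ (by omega)
        _ = KK n * X ^ (Fintype.card W - 4) := by rw [KK]; ring
    refine lt_of_le_of_lt h1 ?_
    have h2 : X ^ (Fintype.card W - 3) = X * X ^ (Fintype.card W - 4) := by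
      rw [← pow_succ']
      congr 1
      omega
    rw [h2]
    exact Nat.mul_lt_mul_of_pos_right hKX (pow_pos hXpos _)
  · intro hk
    have h1 : (n + 4 + 2) * (Fintype.card W ^ 4 * N ^ (Fintype.card W - 3)) ≤
        KK n * X ^ (Fintype.card W - 3) := by
      calc (n + 4 + 2) * (Fintype.card W ^ 4 * N ^ (Fintype.card W - 3))
          ≤ (n + 7) * (n ^ 4 * (A ^ n * X ^ (Fintype.card W - 3))) :=
            Nat.mul_le_mul (by omega) (Nat.mul_le_mul hk4 (hpow _ (by omega)))
        _ = KK n * X ^ (Fintype.card W - 3) := by rw [KK]; ring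
    refine lt_of_le_of_lt h1 ?_
    have h2 : X ^ (Fintype.card W - 2) = X * X ^ (Fintype.card W - 3) := by
      rw [← pow_succ']
      congr 1
      omega
    rw [h2]
    exact Nat.mul_lt_mul_of_pos_right hKX (pow_pos hXpos _)

/-- `G` is `n`-hyper-irregular: for every graph `F` with at most `n` vertices and at least two
edges, different vertices of `G` have different `F`-degrees. -/
def HyperIrregular (n : ℕ) {V : Type} (G : SimpleGraph V) : Prop :=
  ∀ k ≤ n, ∀ F : SimpleGraph (Fin k), 2 ≤ F.edgeSet.ncard →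
    ∀ u v : V, u ≠ v → fDegree F G u ≠ fDegree F G v

theorem hyperIrregular (n s : ℕ) (hn : 3 ≤ n) (hs : KK n + 10 * n + 100 ≤ s) :
    HyperIrregular n (GG (20 * n * s) s (n + 4)) := by
  intro k hk F hF u v huv h
  refine cov_ne F n s hn (by simpa using hk) hs hF u v huv ?_
  rw [t_Copy, t_Copy, h]

end Pool.Agent.NH44.HY
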