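import Pool.Agent.NH44.HY.Low

/-!
# The comparison steps
-/

open Classical Finset

namespace Pool.Agent.NH44.HY

variable {V W : Type} [Fintype V] [Fintype W]

/-- Comparison of `u` and `v` by a path with two edges through the dominating vertex. -/
theorem step_cherry (hExt : St_Ext) (hSwap : St_Swap) (hCov : St_Cov) (hUp : St_Up)
    (F : SimpleGraph W) (G : SimpleGraph V) (u v q q' : V) (R : Finset V) (X : ℕ)
    {x y z : W} (hxy : F.Adj x y) (hyz : F.Adj y z) (hxz : x ≠ z)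
    (huv : u ≠ v) (hqq : q ≠ q') (hqu : q ≠ u) (hqv : q ≠ v) (hqu' : q' ≠ u) (hqv' : q' ≠ v)
    (hN : ∀ w, w ≠ v → w ≠ q → G.Adj u w → G.Adj v w) (hvq : G.Adj v q') (huq' : ¬ G.Adj u q')
    (hdom : ∀ w, w ≠ u → w ≠ v → w ≠ q' → G.Adj q w → G.Adj q' w)
    (hne : (DD G u v q q').Nonempty)
    (hD : ∀ t ∈ DD G u v q q', G.Adj v t ∧ t ∉ R ∧ ∀ r ∈ R, G.Adj t r)
    (hv : v ∉ R) (hq : q' ∉ R) (hu : u ∉ R)
    (hR : ∀ r ∈ R, ∀ r' ∈ R, r ≠ r' → G.Adj r r')
    (h1 : ∀ r ∈ R, G.Adj v r) (h2 : ∀ r ∈ R, G.Adj q' r)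
    (hX : X ≤ R.card + 1 - Fintype.card W)
    (hXX : 4 ≤ Fintype.card W →
      (Fintype.card W) ^ 4 * (Fintype.card V) ^ (Fintype.card W - 4) < X ^ (Fintype.card W - 3))
    (hX1 : 1 ≤ X) :
    cov F G u < cov F G v := by
  have a1 := hSwap V W F G u v q q' huv hqq hqu hqv hqu' hqv' hN hvq huq' hdom
  have a2 := hCov V W F G u v
  set D := DD G u v q q' with hDdef
  have hDmem : ∀ t ∈ D, G.Adj q' t ∧ ¬ G.Adj q t ∧ t ≠ u ∧ t ≠ v ∧ t ≠ q ∧ t ≠ q' := by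
    intro t ht
    simpa [hDdef, DD] using ht
  -- the lower bound for EE
  have a3 : D.card * X ^ (Fintype.card W - 3) ≤ (EE F G u v q' D).card := by
    have hdisj : ∀ t ∈ D, ∀ t' ∈ D, t ≠ t' →
        Disjoint ((P F G v u).filter fun φ => Uses F φ v q' ∧ Uses F φ q' t ∧ φ z = t)
          ((P F G v u).filter fun φ => Uses F φ v q' ∧ Uses F φ q' t' ∧ φ z = t') := by
      intro t _ t' _ htt
      rw [Finset.disjoint_left]
      intro φ h h'
      rw [Finset.mem_filter] at h h'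
      exact htt (h.2.2.2.symm.trans h'.2.2.2)
    have hsub : D.biUnion (fun t => (P F G v u).filter fun φ =>
        Uses F φ v q' ∧ Uses F φ q' t ∧ φ z = t) ⊆ EE F G u v q' D := by
      intro φ hφ
      rw [Finset.mem_biUnion] at hφ
      obtain ⟨t, ht, hφ⟩ := hφ
      rw [Finset.mem_filter] at hφ
      rw [EE, Finset.mem_filter]
      exact ⟨hφ.1, Or.inr ⟨hφ.2.1, t, ht, hφ.2.2.1⟩⟩
    refine le_trans ?_ (Finset.card_le_card hsub)
    rw [Finset.card_biUnion hdisj]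
    calc D.card * X ^ (Fintype.card W - 3) = ∑ _t ∈ D, X ^ (Fintype.card W - 3) := by
          rw [Finset.sum_const, smul_eq_mul]
      _ ≤ _ := by
          refine Finset.sum_le_sum ?_
          intro t ht
          obtain ⟨c1, c2, c3, c4, c5, c6⟩ := hDmem t ht
          obtain ⟨d1, d2, d3⟩ := hD t ht
          refine le_trans (Nat.pow_le_pow_left hX _) ?_
          exact low3 hExt F G u v q' t R hxy hyz hxz hvq c1 d1 huv hqu'.symm c3.symm hv hq d2 hu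
            hR h1 h2 d3
  have huq : u ≠ q := hqu.symm
  have a4 := hUp V W F G u v q q' D huq hqu'.symm hqq (by
    intro t ht
    obtain ⟨c1, c2, c3, c4, c5, c6⟩ := hDmem t ht
    exact ⟨c3, c5, c6⟩)
  have hDpos : 0 < D.card := Finset.card_pos.2 hne
  have a5 : (BB F G u v q q' D).card < D.card * X ^ (Fintype.card W - 3) := by
    by_cases hk : Fintype.card W < 4
    · rw [a4.1 hk]
      exact Nat.mul_pos hDpos (pow_pos hX1 _)
    · push Not at hk
      refine lt_of_le_of_lt a4.2 ?_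
      rw [mul_assoc]
      exact Nat.mul_lt_mul_of_pos_left (hXX hk) hDpos
  omega

/-- `|BB|` is at most `|W|^4 |V|^(|W|-3)`. -/
theorem bb_le (hUp : St_Up) (F : SimpleGraph W) (G : SimpleGraph V) (u v q q' : V)
    (hqq : q ≠ q') (hqu : q ≠ u) (hqu' : q' ≠ u) (Y : ℕ)
    (hY : 4 ≤ Fintype.card W → (Fintype.card W) ^ 4 * (Fintype.card V) ^ (Fintype.card W - 3) ≤ Y) :
    (BB F G u v q q' (DD G u v q q')).card ≤ Y := by
  have a4 := hUp V W F G u v q q' (DD G u v q q') hqu.symm hqu'.symm hqq (by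
    intro t ht
    have : G.Adj q' t ∧ ¬ G.Adj q t ∧ t ≠ u ∧ t ≠ v ∧ t ≠ q ∧ t ≠ q' := by
      simpa [DD] using ht
    exact ⟨this.2.2.1, this.2.2.2.2.1, this.2.2.2.2.2⟩)
  by_cases hk : Fintype.card W < 4
  · rw [a4.1 hk]; exact Nat.zero_le _
  · push Not at hk
    refine a4.2.trans (le_trans ?_ (hY hk))
    have h1 : (DD G u v q q').card ≤ Fintype.card V := Finset.card_le_univ _
    calc (DD G u v q q').card * Fintype.card W ^ 4 * Fintype.card V ^ (Fintype.card W - 4)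
        ≤ Fintype.card V * Fintype.card W ^ 4 * Fintype.card V ^ (Fintype.card W - 4) := by
          gcongr
      _ = Fintype.card W ^ 4 * (Fintype.card V ^ (Fintype.card W - 4) * Fintype.card V) := by ring
      _ = Fintype.card W ^ 4 * Fintype.card V ^ (Fintype.card W - 3) := by
          rw [← pow_succ]
          congr 2
          omega

/-- Comparison of `u` and `v` by an additional neighbour `p` of `v`. -/
theorem step_edge (hExt : St_Ext) (hSwap : St_Swap) (hCov : St_Cov) (hUp : St_Up)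
    (F : SimpleGraph W) (G : SimpleGraph V) (u v q q' p : V) (R : Finset V) (X Y : ℕ)
    {x y : W} (hxy : F.Adj x y)
    (huv : u ≠ v) (hqq : q ≠ q') (hqu : q ≠ u) (hqv : q ≠ v) (hqu' : q' ≠ u) (hqv' : q' ≠ v)
    (hN : ∀ w, w ≠ v → w ≠ q → G.Adj u w → G.Adj v w) (hvq : G.Adj v q') (huq' : ¬ G.Adj u q')
    (hdom : ∀ w, w ≠ u → w ≠ v → w ≠ q' → G.Adj q w → G.Adj q' w)
    (hvp : G.Adj v p) (hup : ¬ G.Adj u p) (hpu : p ≠ u) (hpq : p ≠ q')
    (hv : v ∉ R) (hp : p ∉ R) (hu : u ∉ R)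
    (hR : ∀ r ∈ R, ∀ r' ∈ R, r ≠ r' → G.Adj r r')
    (h1 : (∀ r ∈ R, G.Adj v r) ∨ ∀ z, F.Adj x z → z = y)
    (h2 : (∀ r ∈ R, G.Adj p r) ∨ ∀ z, F.Adj y z → z = x)
    (hX : X ≤ R.card + 1 - Fintype.card W)
    (hY : 4 ≤ Fintype.card W → (Fintype.card W) ^ 4 * (Fintype.card V) ^ (Fintype.card W - 3) ≤ Y) :
    cov F G u + X ^ (Fintype.card W - 2) ≤ cov F G v + Y := by
  have a1 := hSwap V W F G u v q q' huv hqq hqu hqv hqu' hqv' hN hvq huq' hdom
  have a2 := hCov V W F G u v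
  have a3 : X ^ (Fintype.card W - 2) ≤ (EE F G u v q' (DD G u v q q')).card := by
    refine (Nat.pow_le_pow_left hX _).trans ?_
    refine (low2 hExt F G u v p R hxy hvp huv hpu.symm hv hp hu hR h1 h2).trans ?_
    refine Finset.card_le_card ?_
    intro φ hφ
    rw [Finset.mem_filter] at hφ
    rw [EE, Finset.mem_filter]
    exact ⟨hφ.1, Or.inl ⟨p, hpu, hpq, hup, hφ.2⟩⟩
  have a4 := bb_le hUp F G u v q q' hqq hqu hqu' Y hY
  omega

/-- Nested neighbourhoods with an additional neighbour `p` of `v`. -/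
theorem step_nest (hExt : St_Ext) (hNest : St_Nest) (hCov : St_Cov)
    (F : SimpleGraph W) (G : SimpleGraph V) (u v p : V) (R : Finset V) (X : ℕ)
    {x y : W} (hxy : F.Adj x y) (huv : u ≠ v)
    (hN : ∀ w, w ≠ v → G.Adj u w → G.Adj v w)
    (hvp : G.Adj v p) (hup : ¬ G.Adj u p) (hpu : p ≠ u)
    (hv : v ∉ R) (hp : p ∉ R) (hu : u ∉ R)
    (hR : ∀ r ∈ R, ∀ r' ∈ R, r ≠ r' → G.Adj r r')
    (h1 : (∀ r ∈ R, G.Adj v r) ∨ ∀ z, F.Adj x z → z = y)
    (h2 : (∀ r ∈ R, G.Adj p r) ∨ ∀ z, F.Adj y z → z = x)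
    (hX : X ≤ R.card + 1 - Fintype.card W) :
    cov F G u + X ^ (Fintype.card W - 2) ≤ cov F G v := by
  have a1 := hNest V W F G u v huv hN
  have a2 := hCov V W F G u v
  have a3 : X ^ (Fintype.card W - 2) ≤
      ((P F G v u).filter fun φ => ∃ p, p ≠ u ∧ ¬ G.Adj u p ∧ Uses F φ v p).card := by
    refine (Nat.pow_le_pow_left hX _).trans ?_
    refine (low2 hExt F G u v p R hxy hvp huv hpu.symm hv hp hu hR h1 h2).trans ?_
    refine Finset.card_le_card ?_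
    intro φ hφ
    rw [Finset.mem_filter] at hφ
    rw [Finset.mem_filter]
    exact ⟨hφ.1, p, hpu, hup, hφ.2⟩
  omega

/-- The comparison of two vertices of the same degree for `F` of maximal degree at most one. -/
theorem step_back (hExt : St_Ext) (hSwap : St_Swap) (hBack : St_Back) (hCov : St_Cov)
    (hUp : St_Up) (F : SimpleGraph W) (G : SimpleGraph V) (u v q q' t : V) (R : Finset V) (Y : ℕ)
    (hF : ∀ x y z, F.Adj x y → F.Adj x z → y = z)
    {x y x' y' : W} (hxy : F.Adj x y) (hxy' : F.Adj x' y') (a1 : x ≠ x') (a2 : x ≠ y')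
    (a3 : y ≠ x') (a4 : y ≠ y')
    (huv : u ≠ v) (hqq : q ≠ q') (hqu : q ≠ u) (hqv : q ≠ v) (hqu' : q' ≠ u) (hqv' : q' ≠ v)
    (hN : ∀ w, w ≠ v → w ≠ q → G.Adj u w → G.Adj v w)
    (hN' : ∀ w, w ≠ u → w ≠ q' → G.Adj v w → G.Adj u w)
    (hvq : G.Adj v q') (huq' : ¬ G.Adj u q') (huq : G.Adj u q) (hvq' : ¬ G.Adj v q)
    (hdom : ∀ w, w ≠ u → w ≠ v → w ≠ q' → G.Adj q w → G.Adj q' w)
    (hqt : G.Adj q' t) (hqt' : ¬ G.Adj q t) (htu : t ≠ u) (htv : t ≠ v) (htq : t ≠ q)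
    (hu : u ∉ R) (hq : q ∉ R) (hq' : q' ∉ R) (ht : t ∉ R) (hv : v ∉ R)
    (hR : ∀ r ∈ R, ∀ r' ∈ R, r ≠ r' → G.Adj r r')
    (hX : Fintype.card W ≤ R.card)
    (hY : 4 ≤ Fintype.card W → (Fintype.card W) ^ 4 * (Fintype.card V) ^ (Fintype.card W - 3) ≤ Y) :
    cov F G v < cov F G u ∧ cov F G u ≤ cov F G v + Y := by
  have c1 := hSwap V W F G u v q q' huv hqq hqu hqv hqu' hqv' hN hvq huq' hdom
  have c2 := hCov V W F G u v
  have c3 := hBack V W F G u v q q' hF huv hqq hqu hqv hqu' hqv' hN' huq hvq' hdom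
  have c4 := bb_le hUp F G u v q q' hqq hqu hqu' Y hY
  have c5 := low4 hExt F G u v q q' t R hF hxy hxy' a1 a2 a3 a4 huq hqt hqu'.symm htu.symm hqq
    htq.symm huv.symm hqv.symm hqv'.symm htv.symm hu hq hq' ht hv hR
  have c6 : 1 ≤ (BB F G u v q q' (DD G u v q q')).card := by
    refine le_trans ?_ (Finset.card_le_card (s := (P F G u v).filter fun φ =>
      Uses F φ u q ∧ Uses F φ q' t) ?_)
    · refine le_trans ?_ c5
      exact Nat.one_le_pow _ _ (by omega)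
    · intro φ hφ
      rw [Finset.mem_filter] at hφ
      rw [BB, Finset.mem_filter]
      refine ⟨hφ.1, hφ.2.1, t, ?_, hφ.2.2⟩
      simp only [DD, Finset.mem_filter, Finset.mem_univ, true_and]
      exact ⟨hqt, hqt', htu, htv, htq, hqt.ne'⟩
  constructor <;> omega

/-- Two additional neighbours beat one. -/
theorem step_ratio (hExt : St_Ext) (hRatio : St_Ratio) (hRepl : St_Repl) (hCov : St_Cov)
    (F : SimpleGraph W) (G : SimpleGraph V) (u v g p₁ p₂ : V) (R R' : Finset V) (m : ℕ)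
    {x y : W} (hxy : F.Adj x y)
    (huv : u ≠ v) (hgu : g ≠ u) (hgv : g ≠ v) (hpp : p₁ ≠ p₂)
    (hp1u : p₁ ≠ u) (hp1v : p₁ ≠ v) (hp1g : p₁ ≠ g) (hp2u : p₂ ≠ u) (hp2v : p₂ ≠ v)
    (hp2g : p₂ ≠ g)
    (hN : ∀ w, w ≠ v → w ≠ g → G.Adj u w → G.Adj v w)
    (hvp1 : G.Adj v p₁) (hvp2 : G.Adj v p₂) (hup1 : ¬ G.Adj u p₁) (hup2 : ¬ G.Adj u p₂)
    (hd1 : ∀ w, w ≠ u → w ≠ v → w ≠ g → G.Adj p₁ w → G.Adj g w)
    (hd2 : ∀ w, w ≠ u → w ≠ v → w ≠ g → G.Adj p₂ w → G.Adj g w)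
    (hug : G.Adj u g)
    (hvR : v ∉ R)
    (hr1 : ∀ t ∈ DD G u v p₁ g, ∀ r ∈ R, ∀ w, w ≠ r → G.Adj t w → G.Adj r w)
    (hr2 : ∀ t ∈ DD G u v p₂ g, ∀ r ∈ R, ∀ w, w ≠ r → G.Adj t w → G.Adj r w)
    (hm1 : (DD G u v p₁ g).card ≤ m) (hm2 : (DD G u v p₂ g).card ≤ m)
    (hRm : 2 * (Fintype.card W * m) < R.card - Fintype.card W)
    (hu' : u ∉ R') (hg' : g ∉ R') (hv' : v ∉ R')
    (hR' : ∀ r ∈ R', ∀ r' ∈ R', r ≠ r' → G.Adj r r')
    (h1 : ∀ r ∈ R', G.Adj u r) (h2 : ∀ r ∈ R', G.Adj g r)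
    (hcard' : Fintype.card W ≤ R'.card) :
    cov F G u < cov F G v := by
  have a1 := hRatio V W F G u v g p₁ p₂ huv hgu hgv hpp hp1u hp1v hp1g hp2u hp2v hp2g hN hvp1
    hvp2 hup1 hup2 hd1 hd2
  have a2 := hCov V W F G u v
  have b1 := hRepl V W F G u v g (DD G u v p₁ g) R (by simp [DD]) (by simp [DD]) hvR hr1
  have b2 := hRepl V W F G u v g (DD G u v p₂ g) R (by simp [DD]) (by simp [DD]) hvR hr2
  have c5 := low2 hExt F G v u g R' hxy hug huv.symm hgv.symm hu' hg' hv' hR' (Or.inl h1)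
    (Or.inl h2)
  set T := ((P F G u v).filter fun φ => Uses F φ u g).card with hT
  have hTpos : 1 ≤ T := le_trans (Nat.one_le_pow _ _ (by omega)) c5
  set A1 := (BB F G u v g g (DD G u v p₁ g)).card
  set A2 := (BB F G u v g g (DD G u v p₂ g)).card
  set M := R.card - Fintype.card W with hM
  have b1' : A1 * M ≤ Fintype.card W * m * T := by
    refine b1.trans ?_
    gcongr
  have b2' : A2 * M ≤ Fintype.card W * m * T := by
    refine b2.trans ?_
    gcongr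
  have key : (A1 + A2) * M < T * M := by
    calc (A1 + A2) * M = A1 * M + A2 * M := by ring
      _ ≤ Fintype.card W * m * T + Fintype.card W * m * T := Nat.add_le_add b1' b2'
      _ = T * (2 * (Fintype.card W * m)) := by ring
      _ < T * M := Nat.mul_lt_mul_of_pos_left hRm hTpos
  have key2 : A1 + A2 < T := lt_of_mul_lt_mul_right key (Nat.zero_le _)
  omega

end Pool.Agent.NH44.HY
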