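import Pool.Agent.NH44.HY.Low

/-!
# The comparison lemmas
-/

open Classical Finset

namespace Pool.Agent.NH44.HY

namespace SW

variable {V W : Type} [Fintype V] [Fintype W]

theorem swap1 {u v a : V} (h1 : a ≠ u) (h2 : a ≠ v) : Equiv.swap u v a = a :=
  Equiv.swap_apply_of_ne_of_ne h1 h2

/-- The second permutation. -/
noncomputable def sg (u v q q' : V) : Equiv.Perm V := (Equiv.swap q q').trans (Equiv.swap u v)

theorem sg_apply (u v q q' w : V) : sg u v q q' w = Equiv.swap u v (Equiv.swap q q' w) := rfl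

theorem sg_u {u v q q' : V} (h1 : q ≠ u) (h2 : q' ≠ u) : sg u v q q' u = v := by
  rw [sg_apply, swap1 h1.symm h2.symm, Equiv.swap_apply_left]

theorem sg_v {u v q q' : V} (h1 : q ≠ v) (h2 : q' ≠ v) : sg u v q q' v = u := by
  rw [sg_apply, swap1 h1.symm h2.symm, Equiv.swap_apply_right]

theorem sg_q {u v q q' : V} (h1 : q' ≠ u) (h2 : q' ≠ v) : sg u v q q' q = q' := by
  rw [sg_apply, Equiv.swap_apply_left, swap1 h1 h2]

theorem sg_q' {u v q q' : V} (h1 : q ≠ u) (h2 : q ≠ v) : sg u v q q' q' = q := by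
  rw [sg_apply, Equiv.swap_apply_right, swap1 h1 h2]

theorem sg_o {u v q q' w : V} (h1 : w ≠ u) (h2 : w ≠ v) (h3 : w ≠ q) (h4 : w ≠ q') :
    sg u v q q' w = w := by
  rw [sg_apply, swap1 h3 h4, swap1 h1 h2]

/-- Type 1: hom property. -/
theorem hom1 {G : SimpleGraph V} {u v : V} {E : V → Prop}
    (hN : ∀ w, w ≠ v → ¬ E w → G.Adj u w → G.Adj v w) {a b : V} (hab : G.Adj a b)
    (ha : a ≠ v) (hb : b ≠ v) (h1 : a = u → ¬ E b) (h2 : b = u → ¬ E a) :
    G.Adj (Equiv.swap u v a) (Equiv.swap u v b) := by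
  rcases eq_or_ne a u with rfl | hau
  · rw [Equiv.swap_apply_left, swap1 hab.ne' hb]
    exact hN b hb (h1 rfl) hab
  · rcases eq_or_ne b u with rfl | hbu
    · rw [Equiv.swap_apply_left, swap1 hab.ne ha]
      exact (hN a ha (h2 rfl) hab.symm).symm
    · rw [swap1 hau ha, swap1 hbu hb]
      exact hab

/-- Type 2: hom property. -/
theorem hom2 {G : SimpleGraph V} {u v q q' : V} {E : V → Prop}
    (hqu : q ≠ u) (hqv : q ≠ v) (hqu' : q' ≠ u) (hqv' : q' ≠ v)
    (hN : ∀ w, w ≠ v → w ≠ q → w ≠ q' → ¬ E w → G.Adj u w → G.Adj v w) (hvq : G.Adj v q')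
    (hdom : ∀ w, w ≠ u → w ≠ v → w ≠ q' → G.Adj q w → G.Adj q' w)
    {a b : V} (hab : G.Adj a b) (ha : a ≠ v) (hb : b ≠ v)
    (h1 : a = u → b ≠ q' ∧ ¬ E b) (h2 : b = u → a ≠ q' ∧ ¬ E a)
    (h3 : a = q → b ≠ u → True) (h4 : a = q' → b ≠ q → G.Adj q b)
    (h5 : b = q' → a ≠ q → G.Adj q a) :
    G.Adj (sg u v q q' a) (sg u v q q' b) := by
  rcases eq_or_ne a u with rfl | hau
  · rw [sg_u hqu hqu']
    rcases eq_or_ne b q with rfl | hbq
    · rw [sg_q hqu' hqv']; exact hvq
    · rw [sg_o hab.ne' hb hbq (h1 rfl).1]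
      exact hN b hb hbq (h1 rfl).1 (h1 rfl).2 hab
  · rcases eq_or_ne b u with rfl | hbu
    · rw [sg_u hqu hqu']
      rcases eq_or_ne a q with rfl | haq
      · rw [sg_q hqu' hqv']; exact hvq.symm
      · rw [sg_o hab.ne ha haq (h2 rfl).1]
        exact (hN a ha haq (h2 rfl).1 (h2 rfl).2 hab.symm).symm
    · rcases eq_or_ne a q with rfl | haq
      · rw [sg_q hqu' hqv']
        rcases eq_or_ne b q' with rfl | hbq'
        · rw [sg_q' hqu hqv]; exact hab.symm
        · rw [sg_o hbu hb hab.ne' hbq']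
          exact hdom b hbu hb hbq' hab
      · rcases eq_or_ne a q' with rfl | haq'
        · rw [sg_q' hqu hqv]
          rcases eq_or_ne b q with rfl | hbq
          · rw [sg_q hqu' hqv']; exact hab.symm
          · rw [sg_o hbu hb hbq hab.ne']
            exact h4 rfl hbq
        · rw [sg_o hau ha haq haq']
          rcases eq_or_ne b q with rfl | hbq
          · rw [sg_q hqu' hqv']
            exact (hdom a hau ha haq' hab.symm).symm
          · rcases eq_or_ne b q' with rfl | hbq'
            · rw [sg_q' hqu hqv]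
              exact (h5 rfl haq).symm
            · rw [sg_o hbu hb hbq hbq']
              exact hab

theorem card_le_of {α : Type} {A A' B B' : Finset α} (hB : B ⊆ A) (hB' : B' ⊆ A') (f : α → α)
    (h1 : ∀ x ∈ A, x ∉ B → f x ∈ A' ∧ f x ∉ B')
    (h2 : ∀ x ∈ A, x ∉ B → ∀ y ∈ A, y ∉ B → f x = f y → x = y) :
    A.card + B'.card ≤ A'.card + B.card := by
  have h : (A \ B).card ≤ (A' \ B').card := by
    refine Finset.card_le_card_of_injOn f ?_ ?_
    · intro x hx
      rw [Finset.mem_coe, Finset.mem_sdiff] at hx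
      rw [Finset.mem_coe, Finset.mem_sdiff]
      exact h1 x hx.1 hx.2
    · intro x hx y hy hxy
      rw [Finset.mem_coe, Finset.mem_sdiff] at hx hy
      exact h2 x hx.1 hx.2 y hy.1 hy.2 hxy
  have e1 := Finset.card_sdiff_add_card_eq_card hB
  have e2 := Finset.card_sdiff_add_card_eq_card hB'
  omega

end SW

open SW

theorem t_Cov : St_Cov := by
  intro V W _ _ F G u v
  have h1 : cov F G u = ((homs F G).filter fun φ => (∃ x, φ x = u) ∧ ∃ x, φ x = v).card +
      (P F G u v).card := by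
    rw [cov, P, ← Finset.card_union_of_disjoint]
    · congr 1
      ext φ
      simp only [Finset.mem_filter, Finset.mem_union]
      constructor
      · rintro ⟨a, b⟩
        by_cases hv : ∃ x, φ x = v
        · exact Or.inl ⟨a, b, hv⟩
        · push Not at hv
          exact Or.inr ⟨a, b, hv⟩
      · rintro (⟨a, b, c⟩ | ⟨a, b, c⟩) <;> exact ⟨a, b⟩
    · rw [Finset.disjoint_left]
      intro φ h h'
      rw [Finset.mem_filter] at h h'
      obtain ⟨x, hx⟩ := h.2.2
      exact h'.2.2 x hx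
  have h2 : cov F G v = ((homs F G).filter fun φ => (∃ x, φ x = u) ∧ ∃ x, φ x = v).card +
      (P F G v u).card := by
    rw [cov, P, ← Finset.card_union_of_disjoint]
    · congr 1
      ext φ
      simp only [Finset.mem_filter, Finset.mem_union]
      constructor
      · rintro ⟨a, b⟩
        by_cases hv : ∃ x, φ x = u
        · exact Or.inl ⟨a, hv, b⟩
        · push Not at hv
          exact Or.inr ⟨a, b, hv⟩
      · rintro (⟨a, b, c⟩ | ⟨a, b, c⟩)
        · exact ⟨a, c⟩
        · exact ⟨a, b⟩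
    · rw [Finset.disjoint_left]
      intro φ h h'
      rw [Finset.mem_filter] at h h'
      obtain ⟨x, hx⟩ := h.2.1
      exact h'.2.2 x hx
  omega

theorem t_Nest : St_Nest := by
  intro V W _ _ F G u v huv hN
  have := card_le_of (A := P F G u v) (A' := P F G v u) (B := ∅)
    (B' := (P F G v u).filter fun φ => ∃ p, p ≠ u ∧ ¬ G.Adj u p ∧ Uses F φ v p)
    (Finset.empty_subset _) (Finset.filter_subset _ _)
    (fun φ => φ.trans (Equiv.swap u v).toEmbedding) ?_ ?_
  · simpa using this
  · intro φ hφ _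
    rw [mem_P] at hφ
    obtain ⟨h1, ⟨x0, hx0⟩, h3⟩ := hφ
    refine ⟨?_, ?_⟩
    · rw [mem_P]
      refine ⟨?_, ⟨x0, ?_⟩, ?_⟩
      · intro x y hxy
        exact hom1 (E := fun _ => False) (fun w hw _ h => hN w hw h) (h1 x y hxy) (h3 x) (h3 y)
          (fun _ => id) (fun _ => id)
      · change Equiv.swap u v (φ x0) = v
        rw [hx0, Equiv.swap_apply_left]
      · intro x hx
        change Equiv.swap u v (φ x) = u at hx
        rw [Equiv.swap_apply_eq_iff, Equiv.swap_apply_left] at hx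
        exact h3 x hx
    · rw [Finset.mem_filter]
      rintro ⟨_, p, hpu, hup, x, y, hxy, hx, hy⟩
      change Equiv.swap u v (φ x) = v at hx
      change Equiv.swap u v (φ y) = p at hy
      rw [Equiv.swap_apply_eq_iff, Equiv.swap_apply_right] at hx
      have hadj := h1 x y hxy
      have hyu : φ y ≠ u := fun h => hadj.ne (hx.trans h.symm)
      rw [swap1 hyu (h3 y)] at hy
      rw [hx, hy] at hadj
      exact hup hadj
  · intro φ _ _ ψ _ _ h
    ext x
    have := DFunLike.congr_fun h x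
    exact (Equiv.swap u v).injective this

/-- Type 1 images. -/
theorem type1 {V W : Type} [Fintype V] [Fintype W] {F : SimpleGraph W} {G : SimpleGraph V}
    {u v q : V} (hN : ∀ w, w ≠ v → w ≠ q → G.Adj u w → G.Adj v w) {φ : W ↪ V}
    (hφ : φ ∈ P F G u v) (hq : ¬ Uses F φ u q) :
    φ.trans (Equiv.swap u v).toEmbedding ∈ P F G v u ∧
      ∀ p, p ≠ u → Uses F (φ.trans (Equiv.swap u v).toEmbedding) v p → G.Adj u p := by
  rw [mem_P] at hφ
  obtain ⟨h1, ⟨x0, hx0⟩, h3⟩ := hφ
  refine ⟨?_, ?_⟩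
  · rw [mem_P]
    refine ⟨?_, ⟨x0, ?_⟩, ?_⟩
    · intro x y hxy
      refine hom1 (E := fun w => w = q) (fun w hw hwq h => hN w hw hwq h) (h1 x y hxy) (h3 x)
        (h3 y) ?_ ?_
      · intro hx hy
        exact hq ⟨x, y, hxy, hx, hy⟩
      · intro hy hx
        exact hq ⟨y, x, hxy.symm, hy, hx⟩
    · change Equiv.swap u v (φ x0) = v
      rw [hx0, Equiv.swap_apply_left]
    · intro x hx
      change Equiv.swap u v (φ x) = u at hx
      rw [Equiv.swap_apply_eq_iff, Equiv.swap_apply_left] at hx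
      exact h3 x hx
  · rintro p hpu ⟨x, y, hxy, hx, hy⟩
    change Equiv.swap u v (φ x) = v at hx
    change Equiv.swap u v (φ y) = p at hy
    rw [Equiv.swap_apply_eq_iff, Equiv.swap_apply_right] at hx
    have hadj := h1 x y hxy
    have hyu : φ y ≠ u := fun h => hadj.ne (hx.trans h.symm)
    rw [swap1 hyu (h3 y)] at hy
    rw [hx, hy] at hadj
    exact hadj

/-- Type 2 images. -/
theorem type2 {V W : Type} [Fintype V] [Fintype W] {F : SimpleGraph W} {G : SimpleGraph V}
    {u v q q' : V} (hqu : q ≠ u) (hqv : q ≠ v) (hqu' : q' ≠ u) (hqv' : q' ≠ v)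
    (hN : ∀ w, w ≠ v → w ≠ q → G.Adj u w → G.Adj v w) (hvq : G.Adj v q')
    (huq' : ¬ G.Adj u q')
    (hdom : ∀ w, w ≠ u → w ≠ v → w ≠ q' → G.Adj q w → G.Adj q' w)
    {φ : W ↪ V} (hφ : φ ∈ P F G u v)
    (hD : ¬ ∃ t ∈ DD G u v q q', Uses F φ q' t) :
    φ.trans (sg u v q q').toEmbedding ∈ P F G v u := by
  rw [mem_P] at hφ
  obtain ⟨h1, ⟨x0, hx0⟩, h3⟩ := hφ
  have hu : ∀ x y, F.Adj x y → φ x = q' → φ y ≠ u := by
    intro x y hxy hx hy
    have := h1 x y hxy
    rw [hx, hy] at this
    exact huq' this.symm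
  have hqq : ∀ x y, F.Adj x y → φ x = q' → φ y ≠ q → G.Adj q (φ y) := by
    intro x y hxy hx hy
    by_contra hcon
    refine hD ⟨φ y, ?_, x, y, hxy, hx, rfl⟩
    simp only [DD, Finset.mem_filter, Finset.mem_univ, true_and]
    have hadj := h1 x y hxy
    rw [hx] at hadj
    exact ⟨hadj, hcon, hu x y hxy hx, h3 y, hy, hadj.ne'⟩
  rw [mem_P]
  refine ⟨?_, ⟨x0, ?_⟩, ?_⟩
  · intro x y hxy
    refine hom2 (E := fun _ => False) hqu hqv hqu' hqv' (fun w h1 h2 _ _ h => hN w h1 h2 h) hvq
      hdom (h1 x y hxy) (h3 x) (h3 y) ?_ ?_ (fun _ _ => trivial) ?_ ?_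
    · intro hx
      exact ⟨fun hy => hu y x hxy.symm hy hx, id⟩
    · intro hy
      exact ⟨fun hx => hu x y hxy hx hy, id⟩
    · intro hx hy
      exact hqq x y hxy hx hy
    · intro hy hx
      exact hqq y x hxy.symm hy hx
  · change sg u v q q' (φ x0) = v
    rw [hx0, sg_u hqu hqu']
  · intro x hx
    change sg u v q q' (φ x) = u at hx
    have : φ x = v := (sg u v q q').injective (hx.trans (sg_v hqv hqv').symm)
    exact h3 x this

theorem t_Swap : St_Swap := by
  intro V W _ _ F G u v q q' huv hqq hqu hqv hqu' hqv' hN hvq huq' hdom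
  refine card_le_of (A := P F G u v) (A' := P F G v u) (B := BB F G u v q q' (DD G u v q q'))
    (B' := EE F G u v q' (DD G u v q q')) (Finset.filter_subset _ _) (Finset.filter_subset _ _)
    (fun φ => if Uses F φ u q then φ.trans (sg u v q q').toEmbedding
      else φ.trans (Equiv.swap u v).toEmbedding) ?_ ?_
  · intro φ hφ hB
    by_cases hU : Uses F φ u q
    · rw [if_pos hU]
      have hD : ¬ ∃ t ∈ DD G u v q q', Uses F φ q' t := by
        intro hD
        exact hB (Finset.mem_filter.2 ⟨hφ, hU, hD⟩)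
      refine ⟨type2 hqu hqv hqu' hqv' hN hvq huq' hdom hφ hD, ?_⟩
      have hφ' := hφ
      rw [mem_P] at hφ'
      obtain ⟨h1, _, h3⟩ := hφ'
      rw [EE, Finset.mem_filter]
      rintro ⟨_, ⟨p, hpu, hpq, hup, x, y, hxy, hx, hy⟩ | ⟨_, t, ht, x, y, hxy, hx, hy⟩⟩
      · change sg u v q q' (φ x) = v at hx
        change sg u v q q' (φ y) = p at hy
        have e1 : φ x = u := (sg u v q q').injective (hx.trans (sg_u hqu hqu').symm)
        have hadj := h1 x y hxy
        rw [e1] at hadj
        have hyq : φ y ≠ q := by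
          intro h
          rw [h, sg_q hqu' hqv'] at hy
          exact hpq hy.symm
        have hyq' : φ y ≠ q' := by
          intro h
          rw [h] at hadj
          exact huq' hadj
        rw [sg_o hadj.ne' (h3 y) hyq hyq'] at hy
        rw [hy] at hadj
        exact hup hadj
      · change sg u v q q' (φ x) = q' at hx
        change sg u v q q' (φ y) = t at hy
        simp only [DD, Finset.mem_filter, Finset.mem_univ, true_and] at ht
        obtain ⟨t1, t2, t3, t4, t5, t6⟩ := ht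
        have e1 : φ x = q := (sg u v q q').injective (hx.trans (sg_q hqu' hqv').symm)
        have e2 : φ y = t := (sg u v q q').injective (hy.trans (sg_o t3 t4 t5 t6).symm)
        have hadj := h1 x y hxy
        rw [e1, e2] at hadj
        exact t2 hadj
    · rw [if_neg hU]
      obtain ⟨m1, m2⟩ := type1 hN hφ hU
      refine ⟨m1, ?_⟩
      rw [EE, Finset.mem_filter]
      rintro ⟨_, ⟨p, hpu, hpq, hup, hp⟩ | ⟨hq, _⟩⟩
      · exact hup (m2 p hpu hp)
      · exact huq' (m2 q' hqu' hq)
  · intro φ hφ _ ψ hψ _ h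
    by_cases hU : Uses F φ u q
    · by_cases hU' : Uses F ψ u q
      · simp only [if_pos hU, if_pos hU'] at h
        ext x
        exact (sg u v q q').injective (DFunLike.congr_fun h x)
      · exfalso
        simp only [if_pos hU, if_neg hU'] at h
        obtain ⟨x, y, hxy, hx, hy⟩ := hU
        refine huq' ((type1 hN hψ hU').2 q' hqu' ?_)
        rw [← h]
        refine ⟨x, y, hxy, ?_, ?_⟩
        · change sg u v q q' (φ x) = v
          rw [hx, sg_u hqu hqu']
        · change sg u v q q' (φ y) = q'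
          rw [hy, sg_q hqu' hqv']
    · by_cases hU' : Uses F ψ u q
      · exfalso
        simp only [if_neg hU, if_pos hU'] at h
        obtain ⟨x, y, hxy, hx, hy⟩ := hU'
        refine huq' ((type1 hN hφ hU).2 q' hqu' ?_)
        rw [h]
        refine ⟨x, y, hxy, ?_, ?_⟩
        · change sg u v q q' (ψ x) = v
          rw [hx, sg_u hqu hqu']
        · change sg u v q q' (ψ y) = q'
          rw [hy, sg_q hqu' hqv']
      · simp only [if_neg hU, if_neg hU'] at h
        ext x
        exact (Equiv.swap u v).injective (DFunLike.congr_fun h x)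

end Pool.Agent.NH44.HY
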